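import Mathlib

set_option autoImplicit false

open Finset

namespace H2BC

section
variable {ι : Type} [Fintype ι] [DecidableEq ι]

/-- Average over the cube. -/
noncomputable def Ex (f : (ι → Bool) → ℝ) : ℝ := (∑ ω, f ω) / 2 ^ Fintype.card ι

open Classical in
/-- Probability under the uniform measure on the cube. -/
noncomputable def Pr (P : (ι → Bool) → Prop) : ℝ := Ex (fun ω => if P ω then 1 else 0)

lemma card_cube : (Fintype.card (ι → Bool) : ℝ) = 2 ^ Fintype.card ι := by
  simp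

lemma Ex_mono {f g : (ι → Bool) → ℝ} (h : ∀ ω, f ω ≤ g ω) : Ex f ≤ Ex g := by
  unfold Ex
  gcongr with ω _
  exact h ω

lemma Ex_const (c : ℝ) : Ex (fun _ : ι → Bool => c) = c := by
  unfold Ex
  rw [Finset.sum_const, Finset.card_univ, nsmul_eq_mul, card_cube]
  field_simp

lemma Ex_nonneg {f : (ι → Bool) → ℝ} (h : ∀ ω, 0 ≤ f ω) : 0 ≤ Ex f := by
  rw [← Ex_const (ι := ι) 0]
  exact Ex_mono h

lemma Ex_add (f g : (ι → Bool) → ℝ) : Ex (fun ω => f ω + g ω) = Ex f + Ex g := by
  unfold Ex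
  rw [Finset.sum_add_distrib, add_div]

lemma Ex_sub (f g : (ι → Bool) → ℝ) : Ex (fun ω => f ω - g ω) = Ex f - Ex g := by
  unfold Ex
  rw [Finset.sum_sub_distrib, sub_div]

lemma Ex_mul_left (c : ℝ) (f : (ι → Bool) → ℝ) : Ex (fun ω => c * f ω) = c * Ex f := by
  unfold Ex
  rw [← Finset.mul_sum, mul_div_assoc]

lemma Ex_sum {κ : Type} (s : Finset κ) (f : κ → (ι → Bool) → ℝ) :
    Ex (fun ω => ∑ k ∈ s, f k ω) = ∑ k ∈ s, Ex (f k) := by
  unfold Ex
  rw [Finset.sum_comm, Finset.sum_div]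

lemma Pr_nonneg (P : (ι → Bool) → Prop) : 0 ≤ Pr P :=
  Ex_nonneg fun ω => by split_ifs <;> norm_num

lemma Pr_le_one (P : (ι → Bool) → Prop) : Pr P ≤ 1 := by
  rw [← Ex_const (ι := ι) 1]
  exact Ex_mono fun ω => by split_ifs <;> norm_num

lemma Pr_mono {P Q : (ι → Bool) → Prop} (h : ∀ ω, P ω → Q ω) : Pr P ≤ Pr Q :=
  Ex_mono fun ω => by
    by_cases hP : P ω
    · simp [hP, h ω hP]
    · simp only [hP, if_false]; split_ifs <;> norm_num

lemma Pr_congr {P Q : (ι → Bool) → Prop} (h : ∀ ω, P ω ↔ Q ω) : Pr P = Pr Q :=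
  le_antisymm (Pr_mono fun ω => (h ω).1) (Pr_mono fun ω => (h ω).2)

lemma Pr_not (P : (ι → Bool) → Prop) : Pr (fun ω => ¬ P ω) = 1 - Pr P := by
  have h1 : Ex (fun ω : ι → Bool => (1 : ℝ) - (open Classical in if P ω then (1 : ℝ) else 0)) =
      1 - Pr P := by
    rw [Ex_sub, Ex_const]; rfl
  rw [← h1]
  unfold Pr
  congr 1
  funext ω
  by_cases h : P ω <;> simp [h]

lemma Pr_union {κ : Type} (s : Finset κ) (P : κ → (ι → Bool) → Prop) :
    Pr (fun ω => ∃ k ∈ s, P k ω) ≤ ∑ k ∈ s, Pr (P k) := by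
  classical
  unfold Pr
  rw [← Ex_sum]
  refine Ex_mono fun ω => ?_
  by_cases h : ∃ k ∈ s, P k ω
  · obtain ⟨k, hk, hP⟩ := h
    rw [if_pos ⟨k, hk, hP⟩]
    calc (1 : ℝ) = if P k ω then 1 else 0 := by rw [if_pos hP]
      _ ≤ _ := Finset.single_le_sum (f := fun k => if P k ω then (1 : ℝ) else 0)
        (fun k _ => by split_ifs <;> norm_num) hk
  · rw [if_neg h]
    exact Finset.sum_nonneg fun k _ => by split_ifs <;> norm_num

lemma Pr_or (P Q : (ι → Bool) → Prop) : Pr (fun ω => P ω ∨ Q ω) ≤ Pr P + Pr Q := by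
  unfold Pr
  rw [← Ex_add]
  refine Ex_mono fun ω => ?_
  by_cases h : P ω <;> by_cases h' : Q ω <;> simp [h, h']

lemma Ex_mul {f g : (ι → Bool) → ℝ} {S T : Set ι} (hST : Disjoint S T) (hf : DependsOn f S)
    (hg : DependsOn g T) : Ex (fun ω => f ω * g ω) = Ex f * Ex g := by
  classical
  set e := Equiv.piEquivPiSubtypeProd (fun i => i ∈ S) (fun _ : ι => Bool) with he
  have hsum : ∀ h : (ι → Bool) → ℝ, ∑ ω, h ω = ∑ a, ∑ b, h (e.symm (a, b)) := by
    intro h
    rw [← Fintype.sum_prod_type' (f := fun a b => h (e.symm (a, b)))]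
    exact (Equiv.sum_comp e.symm h).symm
  have hcard : (2 : ℝ) ^ Fintype.card ι =
      (Fintype.card ({i // i ∈ S} → Bool) : ℝ) * Fintype.card ({i // ¬ i ∈ S} → Bool) := by
    rw [← card_cube (ι := ι), Fintype.card_congr e, Fintype.card_prod]
    push_cast
    rfl
  let a0 : {i // i ∈ S} → Bool := fun _ => false
  let b0 : {i // ¬ i ∈ S} → Bool := fun _ => false
  have hf' : ∀ a b, f (e.symm (a, b)) = f (e.symm (a, b0)) := by
    intro a b
    apply hf
    intro i hi
    simp [he, Equiv.piEquivPiSubtypeProd, hi]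
  have hg' : ∀ a b, g (e.symm (a, b)) = g (e.symm (a0, b)) := by
    intro a b
    apply hg
    intro i hi
    have hi' : i ∉ S := fun h => Set.disjoint_left.1 hST h hi
    simp [he, Equiv.piEquivPiSubtypeProd, hi']
  unfold Ex
  rw [hsum, hsum f, hsum g]
  have h1 : ∑ a, ∑ b, f (e.symm (a, b)) * g (e.symm (a, b)) =
      (∑ a, f (e.symm (a, b0))) * ∑ b, g (e.symm (a0, b)) := by
    rw [Finset.sum_mul_sum]
    refine Finset.sum_congr rfl fun a _ => Finset.sum_congr rfl fun b _ => ?_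
    rw [hf' a b, hg' a b]
  have h2 : ∑ a, ∑ b, f (e.symm (a, b)) =
      (Fintype.card ({i // ¬ i ∈ S} → Bool) : ℝ) * ∑ a, f (e.symm (a, b0)) := by
    rw [Finset.mul_sum]
    refine Finset.sum_congr rfl fun a _ => ?_
    rw [Finset.sum_congr rfl fun b _ => hf' a b, Finset.sum_const, Finset.card_univ, nsmul_eq_mul]
  have h3 : ∑ a, ∑ b, g (e.symm (a, b)) =
      (Fintype.card ({i // i ∈ S} → Bool) : ℝ) * ∑ b, g (e.symm (a0, b)) := by
    rw [Finset.sum_congr rfl fun a _ => Finset.sum_congr rfl fun b _ => hg' a b,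
      Finset.sum_const, Finset.card_univ, nsmul_eq_mul]
  rw [h1, h2, h3, hcard]
  have hA : (Fintype.card ({i // i ∈ S} → Bool) : ℝ) ≠ 0 := by simp
  have hB : (Fintype.card ({i // ¬ i ∈ S} → Bool) : ℝ) ≠ 0 := by simp
  field_simp

lemma dependsOn_pred {P : (ι → Bool) → Prop} {S : Set ι}
    (h : ∀ ω ω' : ι → Bool, (∀ i ∈ S, ω i = ω' i) → (P ω ↔ P ω')) :
    DependsOn (fun ω => open Classical in if P ω then (1 : ℝ) else 0) S := by
  intro ω ω' hω
  have := h ω ω' hω
  by_cases hP : P ω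
  · simp [hP, this.1 hP]
  · simp [hP, mt this.2 hP]

/-- Independence of events. -/
lemma Pr_and {P Q : (ι → Bool) → Prop} {S T : Set ι} (hST : Disjoint S T)
    (hP : ∀ ω ω' : ι → Bool, (∀ i ∈ S, ω i = ω' i) → (P ω ↔ P ω'))
    (hQ : ∀ ω ω' : ι → Bool, (∀ i ∈ T, ω i = ω' i) → (Q ω ↔ Q ω')) :
    Pr (fun ω => P ω ∧ Q ω) = Pr P * Pr Q := by
  classical
  unfold Pr
  rw [← Ex_mul hST (dependsOn_pred hP) (dependsOn_pred hQ)]
  congr 1
  funext ω
  by_cases h : P ω <;> by_cases h' : Q ω <;> simp [h, h']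

lemma Pr_single (i : ι) (b : Bool) : Pr (fun ω : ι → Bool => ω i = b) = 1 / 2 := by
  have h1 : ∀ c : Bool, Pr (fun ω : ι → Bool => ω i = c) = Pr (fun ω : ι → Bool => ω i = !c) := by
    intro c
    unfold Pr Ex
    congr 1
    classical
    let φ : (ι → Bool) ≃ (ι → Bool) :=
      { toFun := fun ω => Function.update ω i (!(ω i))
        invFun := fun ω => Function.update ω i (!(ω i))
        left_inv := fun ω => by simp
        right_inv := fun ω => by simp }
    refine Fintype.sum_equiv φ _ _ fun ω => ?_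
    have h4 : φ ω i = !(ω i) := by simp [φ]
    have h5 : (φ ω i = !c) ↔ (ω i = c) := by rw [h4]; cases ω i <;> cases c <;> simp
    by_cases hb : ω i = c
    · rw [if_pos (show (fun ω : ι → Bool => ω i = c) ω from hb),
        if_pos (show (fun ω : ι → Bool => ω i = !c) (φ ω) from h5.2 hb)]
    · rw [if_neg (show ¬ (fun ω : ι → Bool => ω i = c) ω from hb),
        if_neg (show ¬ (fun ω : ι → Bool => ω i = !c) (φ ω) from mt h5.1 hb)]
  have h2 : Pr (fun ω : ι → Bool => ω i = !b) = 1 - Pr (fun ω : ι → Bool => ω i = b) := by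
    rw [← Pr_not]
    refine Pr_congr fun ω => ?_
    cases b <;> cases ω i <;> simp
  have h3 := h1 b
  linarith

lemma Pr_cyl (S : Finset ι) (b : Bool) :
    Pr (fun ω : ι → Bool => ∀ i ∈ S, ω i = b) = (1 / 2) ^ #S := by
  classical
  induction S using Finset.induction_on with
  | empty =>
    simp only [Finset.card_empty, pow_zero]
    have : Pr (fun ω : ι → Bool => ∀ i ∈ (∅ : Finset ι), ω i = b) = Ex (fun _ : ι → Bool => (1:ℝ)) := by
      unfold Pr; congr 1; funext ω; simp
    rw [this, Ex_const]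
  | insert a S ha ih =>
    rw [Finset.card_insert_of_notMem ha, pow_succ, ← ih, mul_comm, ← Pr_single a b]
    rw [← Pr_and (S := {a}) (T := (S : Set ι)) (by simpa using ha)]
    · exact Pr_congr fun ω => by simp
    · intro ω ω' h
      rw [h a (by simp)]
    · intro ω ω' h
      refine forall_congr' fun i => ?_
      refine forall_congr' fun hi => ?_
      rw [h i (by simpa using hi)]

/-- Product bound for families depending on disjoint sets. -/
lemma Ex_prod_le {κ : Type} [DecidableEq κ] (s : Finset κ) (E : κ → Set ι)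
    (φ : κ → (ι → Bool) → ℝ)
    (hdisj : ∀ p ∈ s, ∀ p' ∈ s, p ≠ p' → Disjoint (E p) (E p'))
    (hdep : ∀ p ∈ s, DependsOn (φ p) (E p)) (hnn : ∀ p ∈ s, ∀ ω, 0 ≤ φ p ω) (c : ℝ)
    (hc : ∀ p ∈ s, Ex (φ p) ≤ c) :
    Ex (fun ω => ∏ p ∈ s, φ p ω) ≤ c ^ #s := by
  classical
  induction s using Finset.induction_on with
  | empty => simp [Ex_const]
  | insert a s ha ih =>
    have hc0 : 0 ≤ c := (Ex_nonneg (hnn a (by simp))).trans (hc a (by simp))
    have h1 : Ex (fun ω => ∏ p ∈ insert a s, φ p ω) =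
        Ex (φ a) * Ex (fun ω => ∏ p ∈ s, φ p ω) := by
      rw [← Ex_mul (S := E a) (T := ⋃ p ∈ s, E p)]
      · congr 1
        funext ω
        rw [Finset.prod_insert ha]
      · rw [Set.disjoint_iUnion₂_right]
        intro p hp
        exact hdisj a (by simp) p (by simp [hp]) (by rintro rfl; exact ha hp)
      · exact hdep a (by simp)
      · intro ω ω' h
        refine Finset.prod_congr rfl fun p hp => ?_
        exact hdep p (by simp [hp]) fun i hi => h i (Set.mem_biUnion hp hi)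
    rw [h1, Finset.card_insert_of_notMem ha, pow_succ, mul_comm]
    refine mul_le_mul (ih ?_ ?_ ?_ ?_) (hc a (by simp)) (Ex_nonneg (hnn a (by simp))) (by positivity)
    · intro p hp p' hp' hne
      exact hdisj p (by simp [hp]) p' (by simp [hp']) hne
    · intro p hp; exact hdep p (by simp [hp])
    · intro p hp; exact hnn p (by simp [hp])
    · intro p hp; exact hc p (by simp [hp])

end

/-! ### Graphs -/

/-- The graph of a configuration. -/
def gr {n : ℕ} (ω : Sym2 (Fin n) → Bool) : SimpleGraph (Fin n) where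
  Adj x y := x ≠ y ∧ ω s(x, y) = true
  symm := ⟨fun x y h => ⟨h.1.symm, by rw [Sym2.eq_swap]; exact h.2⟩⟩
  loopless := ⟨fun _ h => h.1 rfl⟩

lemma gr_adj {n : ℕ} (ω : Sym2 (Fin n) → Bool) (x y : Fin n) :
    (gr ω).Adj x y ↔ x ≠ y ∧ ω s(x, y) = true := Iff.rfl

/-- Configurations are graphs together with values on the diagonal. -/
noncomputable def grEquiv (n : ℕ) :
    (Sym2 (Fin n) → Bool) ≃ SimpleGraph (Fin n) × (Fin n → Bool) where
  toFun ω := (gr ω, fun x => ω s(x, x))
  invFun p := fun e => Sym2.lift ⟨fun x y => open Classical in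
    if x = y then p.2 x else decide (p.1.Adj x y), by
      intro x y
      by_cases h : x = y
      · subst h; rfl
      · simp only [h, Ne.symm h, if_false]
        exact decide_eq_decide.2 (p.1.adj_comm x y)⟩ e
  left_inv := by
    intro ω
    funext e
    induction e using Sym2.ind with
    | _ x y =>
      simp only [Sym2.lift_mk]
      by_cases h : x = y
      · subst h; simp
      · simp [h, gr_adj]
  right_inv := by
    rintro ⟨G, d⟩
    refine Prod.ext ?_ ?_
    · ext x y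
      simp only [gr_adj, Sym2.lift_mk]
      by_cases h : x = y
      · subst h; simp
      · simp [h]
    · funext x
      simp

lemma card_simpleGraph (n : ℕ) : Nat.card (SimpleGraph (Fin n)) = 2 ^ (n.choose 2) := by
  have h1 : Nat.card (Sym2 (Fin n) → Bool) = Nat.card (SimpleGraph (Fin n)) * 2 ^ n := by
    rw [Nat.card_congr (grEquiv n), Nat.card_prod]
    simp
  have h2 : Nat.card (Sym2 (Fin n) → Bool) = 2 ^ ((n + 1).choose 2) := by
    rw [Nat.card_fun]
    simp [Nat.card_eq_fintype_card, Sym2.card]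
  have h3 : (n + 1).choose 2 = n + n.choose 2 := by
    rw [Nat.choose_succ_succ' n 1]; simp
  rw [h2, h3, pow_add, mul_comm] at h1
  exact (Nat.eq_of_mul_eq_mul_right (by positivity) h1).symm

lemma Pr_gr (n : ℕ) (P : SimpleGraph (Fin n) → Prop) :
    Pr (fun ω : Sym2 (Fin n) → Bool => P (gr ω)) =
      (Nat.card {G : SimpleGraph (Fin n) // P G} : ℝ) / 2 ^ (n.choose 2) := by
  classical
  have hF : Fintype (SimpleGraph (Fin n)) := Fintype.ofFinite _
  unfold Pr Ex
  have h1 : ∑ ω : Sym2 (Fin n) → Bool, (if P (gr ω) then (1 : ℝ) else 0) =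
      ∑ p : SimpleGraph (Fin n) × (Fin n → Bool), (if P p.1 then (1 : ℝ) else 0) :=
    Fintype.sum_equiv (grEquiv n) _ _ fun ω => rfl
  rw [h1, Fintype.sum_prod_type]
  have h4 : ∀ G : SimpleGraph (Fin n), ∑ d : Fin n → Bool, (if P (G, d).1 then (1 : ℝ) else 0) =
      2 ^ n * (if P G then (1 : ℝ) else 0) := by
    intro G
    change ∑ d : Fin n → Bool, (if P G then (1 : ℝ) else 0) = _
    rw [Finset.sum_const, Finset.card_univ, nsmul_eq_mul, card_cube, Fintype.card_fin]
  rw [Finset.sum_congr rfl fun G _ => h4 G, ← Finset.mul_sum, Finset.sum_boole]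
  have h2 : (Nat.card {G : SimpleGraph (Fin n) // P G}) = #(Finset.univ.filter P) := by
    rw [Nat.card_eq_fintype_card, Fintype.card_subtype]
  have h3 : (2 : ℝ) ^ Fintype.card (Sym2 (Fin n)) = 2 ^ n * 2 ^ (n.choose 2) := by
    rw [← pow_add]
    congr 1
    rw [Sym2.card, Fintype.card_fin]
    rw [Nat.choose_succ_succ' n 1]; simp
  rw [h3, h2]
  push_cast
  field_simp

end H2BC
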