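import Mathlib
import Pool.Agent.H2BC.Prob

set_option autoImplicit false

open Finset Classical

namespace H2BC

/-- Number of small subsets. -/
lemma card_small {α : Type} (s : Finset α) (k : ℕ) :
    #(s.powerset.filter (fun t => #t ≤ k)) ≤ (#s + 1) ^ k := by
  induction k with
  | zero =>
    rw [pow_zero]
    refine Finset.card_le_one.2 fun a ha b hb => ?_
    simp only [Finset.mem_filter, Finset.mem_powerset, Nat.le_zero, Finset.card_eq_zero] at ha hb
    rw [ha.2, hb.2]
  | succ k ih =>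
    have hsub : s.powerset.filter (fun t => #t ≤ k + 1) ⊆
        Finset.image₂ (fun (o : Option α) (t : Finset α) => o.elim t (fun a => insert a t))
          (Finset.insertNone s) (s.powerset.filter (fun t => #t ≤ k)) := by
      intro t ht
      simp only [Finset.mem_filter, Finset.mem_powerset] at ht
      rw [Finset.mem_image₂]
      rcases t.eq_empty_or_nonempty with rfl | ⟨a, ha⟩
      · refine ⟨none, by simp, ∅, by simp, rfl⟩
      · refine ⟨some a, by simpa using ht.1 ha, t.erase a, ?_, ?_⟩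
        · simp only [Finset.mem_filter, Finset.mem_powerset]
          refine ⟨(Finset.erase_subset _ _).trans ht.1, ?_⟩
          rw [Finset.card_erase_of_mem ha]
          omega
        · simp [Finset.insert_erase ha]
    calc #(s.powerset.filter (fun t => #t ≤ k + 1)) ≤ _ := Finset.card_le_card hsub
      _ ≤ #(Finset.insertNone s) * #(s.powerset.filter (fun t => #t ≤ k)) := Finset.card_image₂_le _ _ _
      _ ≤ (#s + 1) * (#s + 1) ^ k := by
        rw [Finset.card_insertNone]
        exact Nat.mul_le_mul le_rfl ih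
      _ = _ := by rw [pow_succ, mul_comm]

lemma Pr_star {n : ℕ} (v : Fin n) (J : Finset (Fin n)) (b : Bool) :
    Pr (fun ω : Sym2 (Fin n) → Bool => ∀ x ∈ J, ω s(v, x) = b) = (1 / 2) ^ #J := by
  have h := Pr_cyl (J.image (fun x => s(v, x))) b
  rw [Finset.card_image_of_injective _ (fun x y hxy => Sym2.congr_right.1 hxy)] at h
  rw [← h]
  exact Pr_congr fun ω => by simp

lemma Pr_dominating (n : ℕ) (J : Finset (Fin n)) :
    Pr (fun ω : Sym2 (Fin n) → Bool => ∀ v ∉ J, ∃ x ∈ J, (gr ω).Adj v x) ≤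
      (1 - (1 / 2) ^ #J) ^ (n - #J) := by
  have h1 := Ex_prod_le (ι := Sym2 (Fin n)) (Jᶜ) (fun v => {e | ∃ x ∈ J, e = s(v, x)})
    (fun v ω => if ∃ x ∈ J, ω s(v, x) = true then (1 : ℝ) else 0) ?_ ?_ ?_
    (1 - (1 / 2) ^ #J) ?_
  · rw [Finset.card_compl, Fintype.card_fin] at h1
    refine le_trans ?_ h1
    unfold Pr
    refine Ex_mono fun ω => ?_
    by_cases h : ∀ v ∉ J, ∃ x ∈ J, (gr ω).Adj v x
    · rw [if_pos h, Finset.prod_eq_one]
      intro v hv
      obtain ⟨x, hx, hadj⟩ := h v (by simpa using hv)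
      rw [if_pos ⟨x, hx, hadj.2⟩]
    · rw [if_neg h]
      exact Finset.prod_nonneg fun v _ => by split_ifs <;> norm_num
  · intro v hv v' hv' hne
    rw [Set.disjoint_left]
    rintro e ⟨x, hx, rfl⟩ ⟨x', hx', heq⟩
    rw [Sym2.eq_iff] at heq
    rcases heq with ⟨h, _⟩ | ⟨h, _⟩
    · exact hne h
    · rw [Finset.mem_compl] at hv
      exact hv (h ▸ hx')
  · intro v _
    have h5 := dependsOn_pred (P := fun ω => ∃ x ∈ J, ω s(v, x) = true)
      (S := {e | ∃ x ∈ J, e = s(v, x)}) fun ω ω' h =>
        exists_congr fun x => and_congr_right fun hx => by rw [h _ ⟨x, hx, rfl⟩]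
    intro ω ω' h
    have := h5 h
    simp only at this ⊢
    convert this
  · intro v _ ω
    split_ifs <;> norm_num
  · intro v _
    have h2 := Pr_not (ι := Sym2 (Fin n)) (fun ω => ∀ x ∈ J, ω s(v, x) = false)
    rw [Pr_star] at h2
    rw [← h2]
    refine le_of_eq ?_
    unfold Pr
    congr 1
    funext ω
    have h3 : (∃ x ∈ J, ω s(v, x) = true) ↔ ¬ ∀ x ∈ J, ω s(v, x) = false := by
      push Not
      simp
    by_cases h : ∃ x ∈ J, ω s(v, x) = true
    · rw [if_pos h, if_pos (h3.1 h)]
    · rw [if_neg h, if_neg (mt h3.2 h)]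

lemma Pr_alpha (n k : ℕ) :
    Pr (fun ω : Sym2 (Fin n) → Bool => (gr ω).indepNum < k) ≤
      ((n : ℝ) + 1) ^ k * (1 - (1 / 2) ^ k) ^ (n - k) := by
  have h1 : Pr (fun ω : Sym2 (Fin n) → Bool => (gr ω).indepNum < k) ≤
      Pr (fun ω : Sym2 (Fin n) → Bool => ∃ J ∈ (univ : Finset (Fin n)).powerset.filter (fun t => #t ≤ k),
        ∀ v ∉ J, ∃ x ∈ J, (gr ω).Adj v x) := by
    refine Pr_mono fun ω hω => ?_
    obtain ⟨J, hJ⟩ := (gr ω).exists_isNIndepSet_indepNum
    refine ⟨J, ?_, fun v hv => ?_⟩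
    · simp only [Finset.mem_filter, Finset.powerset_univ, Finset.mem_univ, true_and]
      rw [hJ.card_eq]; exact hω.le
    · by_contra hcon
      push Not at hcon
      have hind : (gr ω).IsIndepSet (insert v J : Finset (Fin n)) := by
        rw [Finset.coe_insert]
        intro x hx y hy hxy
        rcases hx with rfl | hx <;> rcases hy with rfl | hy
        · exact absurd rfl hxy
        · exact hcon y hy
        · intro h
          exact hcon x hx h.symm
        · exact hJ.isIndepSet hx hy hxy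
      have := hind.card_le_indepNum
      rw [Finset.card_insert_of_notMem hv, hJ.card_eq] at this
      omega
  refine h1.trans ((Pr_union _ _).trans ?_)
  have hb0 : (0 : ℝ) ≤ 1 - (1 / 2) ^ k := by
    have : ((1 : ℝ) / 2) ^ k ≤ 1 := pow_le_one₀ (by norm_num) (by norm_num)
    linarith
  calc _ ≤ ∑ J ∈ (univ : Finset (Fin n)).powerset.filter (fun t => #t ≤ k),
        ((1 : ℝ) - (1 / 2) ^ k) ^ (n - k) := by
        refine Finset.sum_le_sum fun J hJ => (Pr_dominating n J).trans ?_
        have hJk : #J ≤ k := by simpa using hJ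
        have e1 : ((1 : ℝ) / 2) ^ k ≤ (1 / 2) ^ #J := pow_le_pow_of_le_one (by norm_num) (by norm_num) hJk
        have e2 : (0 : ℝ) ≤ 1 - (1 / 2) ^ #J := by
          have : ((1 : ℝ) / 2) ^ #J ≤ 1 := pow_le_one₀ (by norm_num) (by norm_num)
          linarith
        have e3 : (1 : ℝ) - (1 / 2) ^ #J ≤ 1 - (1 / 2) ^ k := by linarith
        calc ((1 : ℝ) - (1 / 2) ^ #J) ^ (n - #J) ≤ (1 - (1 / 2) ^ k) ^ (n - #J) := by gcongr
          _ ≤ (1 - (1 / 2) ^ k) ^ (n - k) := by
            refine pow_le_pow_of_le_one hb0 ?_ (by omega)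
            have : (0 : ℝ) ≤ (1 / 2) ^ k := by positivity
            linarith
    _ = (#((univ : Finset (Fin n)).powerset.filter (fun t => #t ≤ k)) : ℝ) *
        ((1 : ℝ) - (1 / 2) ^ k) ^ (n - k) := by rw [Finset.sum_const, nsmul_eq_mul]
    _ ≤ _ := by
      have := card_small (univ : Finset (Fin n)) k
      rw [Finset.card_univ, Fintype.card_fin] at this
      gcongr
      exact_mod_cast this

end H2BC
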