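import Mathlib
import Pool.Agent.H2BC.Alpha

set_option autoImplicit false

open Finset Classical

namespace H2BC

/-- The vertex together with everything in its family. -/
noncomputable def hull {n : ℕ} (v : Fin n) (F : Finset (Finset (Fin n))) : Finset (Fin n) :=
  insert v (F.biUnion id)

lemma self_mem_hull {n : ℕ} (v : Fin n) (F : Finset (Finset (Fin n))) : v ∈ hull v F := by
  simp [hull]

lemma mem_hull_of_mem {n : ℕ} {v x : Fin n} {F : Finset (Finset (Fin n))} {Y : Finset (Fin n)}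
    (hY : Y ∈ F) (hx : x ∈ Y) : x ∈ hull v F := by
  unfold hull
  exact Finset.mem_insert_of_mem (Finset.mem_biUnion.2 ⟨Y, hY, hx⟩)

/-- No member of the family is contained in the neighbourhood of `w`. -/
def Free {n : ℕ} (ω : Sym2 (Fin n) → Bool) (F : Finset (Finset (Fin n))) (w : Fin n) : Prop :=
  ∀ Y ∈ F, ∃ y ∈ Y, ω s(w, y) = false

lemma free_congr {n : ℕ} {ω ω' : Sym2 (Fin n) → Bool} {F : Finset (Finset (Fin n))} {w : Fin n}
    (h : ∀ Y ∈ F, ∀ y ∈ Y, ω s(w, y) = ω' s(w, y)) : Free ω F w ↔ Free ω' F w := by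
  unfold Free
  refine forall_congr' fun Y => forall_congr' fun hY => exists_congr fun y => and_congr_right
    fun hy => ?_
  rw [h Y hY y hy]

lemma Pr_free_sum {n : ℕ} (F : Finset (Finset (Fin n))) (w : Fin n) (c : ℝ)
    (hc : ∑ Y ∈ F, ((1 : ℝ) / 2) ^ #Y ≤ c) :
    1 - c ≤ Pr (fun ω : Sym2 (Fin n) → Bool => Free ω F w) := by
  have h1 := Pr_not (ι := Sym2 (Fin n)) (fun ω => Free ω F w)
  have h2 : Pr (fun ω : Sym2 (Fin n) → Bool => ¬ Free ω F w) ≤
      ∑ Y ∈ F, Pr (fun ω : Sym2 (Fin n) → Bool => ∀ y ∈ Y, ω s(w, y) = true) := by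
    refine le_trans (Pr_mono fun ω hω => ?_) (Pr_union F _)
    unfold Free at hω
    push Not at hω
    obtain ⟨Y, hY, h⟩ := hω
    exact ⟨Y, hY, fun y hy => by simpa using h y hy⟩
  have h3 : ∑ Y ∈ F, Pr (fun ω : Sym2 (Fin n) → Bool => ∀ y ∈ Y, ω s(w, y) = true) =
      ∑ Y ∈ F, ((1 : ℝ) / 2) ^ #Y := Finset.sum_congr rfl fun Y _ => Pr_star w Y true
  linarith

lemma Pr_free {n : ℕ} (F : Finset (Finset (Fin n))) (w : Fin n)
    (hne : ∀ Y ∈ F, Y.Nonempty) (hsmall : #(F.filter (fun Y => #Y = 1)) ≤ 28)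
    (hsum : ∑ Y ∈ F.filter (fun Y => 2 ≤ #Y), ((1 : ℝ) / 2) ^ #Y ≤ 7 / 8) :
    (1 / 2) ^ 31 ≤ Pr (fun ω : Sym2 (Fin n) → Bool => Free ω F w) := by
  set Z : Finset (Fin n) := (F.filter (fun Y => #Y = 1)).biUnion id with hZ
  have hZc : #Z ≤ 28 := by
    refine le_trans Finset.card_biUnion_le (le_trans (le_of_eq ?_) hsmall)
    rw [Finset.sum_congr rfl (g := fun _ => 1)]
    · simp
    · intro Y hY
      exact (Finset.mem_filter.1 hY).2
  set G : Finset (Finset (Fin n)) := F.filter (fun Y => 2 ≤ #Y ∧ Disjoint Y Z) with hG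
  have h1 : Pr (fun ω : Sym2 (Fin n) → Bool => (∀ x ∈ Z, ω s(w, x) = false) ∧ Free ω G w) =
      Pr (fun ω : Sym2 (Fin n) → Bool => ∀ x ∈ Z, ω s(w, x) = false) *
      Pr (fun ω : Sym2 (Fin n) → Bool => Free ω G w) := by
    refine Pr_and (S := {e | ∃ x ∈ Z, e = s(w, x)}) (T := {e | ∃ Y ∈ G, ∃ y ∈ Y, e = s(w, y)}) ?_ ?_ ?_
    · rw [Set.disjoint_left]
      rintro e ⟨x, hx, rfl⟩ ⟨Y, hY, y, hy, heq⟩
      have : x = y := Sym2.congr_right.1 heq
      subst this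
      exact Finset.disjoint_left.1 (Finset.mem_filter.1 hY).2.2 hy hx
    · intro ω ω' h
      refine forall_congr' fun x => forall_congr' fun hx => ?_
      rw [h _ ⟨x, hx, rfl⟩]
    · intro ω ω' h
      exact free_congr fun Y hY y hy => h _ ⟨Y, hY, y, hy, rfl⟩
  have h2 : Pr (fun ω : Sym2 (Fin n) → Bool => (∀ x ∈ Z, ω s(w, x) = false) ∧ Free ω G w) ≤
      Pr (fun ω : Sym2 (Fin n) → Bool => Free ω F w) := by
    refine Pr_mono fun ω hω Y hY => ?_
    rcases Nat.lt_or_ge (#Y) 2 with hlt | hge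
    · have hY1 : #Y = 1 := by
        have := (hne Y hY).card_pos; omega
      obtain ⟨y, hy⟩ := hne Y hY
      refine ⟨y, hy, hω.1 y ?_⟩
      rw [hZ, Finset.mem_biUnion]
      exact ⟨Y, Finset.mem_filter.2 ⟨hY, hY1⟩, hy⟩
    · by_cases hd : Disjoint Y Z
      · exact hω.2 Y (Finset.mem_filter.2 ⟨hY, hge, hd⟩)
      · rw [Finset.not_disjoint_iff] at hd
        obtain ⟨y, hy, hz⟩ := hd
        exact ⟨y, hy, hω.1 y hz⟩
  have h3 : 1 - 7 / 8 ≤ Pr (fun ω : Sym2 (Fin n) → Bool => Free ω G w) := by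
    refine Pr_free_sum G w _ (le_trans ?_ hsum)
    refine Finset.sum_le_sum_of_subset_of_nonneg ?_ fun _ _ _ => by positivity
    intro Y hY
    have := Finset.mem_filter.1 hY
    exact Finset.mem_filter.2 ⟨this.1, this.2.1⟩
  have h4 : ((1 : ℝ) / 2) ^ 28 ≤ (1 / 2) ^ #Z := pow_le_pow_of_le_one (by norm_num) (by norm_num) hZc
  rw [h1, Pr_star] at h2
  refine le_trans ?_ h2
  calc ((1 : ℝ) / 2) ^ 31 = (1 / 2) ^ 28 * (1 - 7 / 8) := by norm_num
    _ ≤ _ := mul_le_mul h4 h3 (by norm_num) (by positivity)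

/-- The combinatorial conditions on the data. -/
structure Cond {n ρ : ℕ} (e : Fin ρ → Fin n) (F : Fin ρ → Finset (Finset (Fin n))) : Prop where
  disj : ∀ i j, i ≠ j → Disjoint (hull (e i) (F i)) (hull (e j) (F j))
  notin : ∀ i, ∀ Y ∈ F i, e i ∉ Y
  ne : ∀ i, ∀ Y ∈ F i, Y.Nonempty
  small : ∀ i, #((F i).filter (fun Y => #Y = 1)) ≤ 28
  sum : ∀ i, ∑ Y ∈ (F i).filter (fun Y => 2 ≤ #Y), ((1 : ℝ) / 2) ^ #Y ≤ 7 / 8

/-- The good event for a pair. -/
def UU {n ρ : ℕ} (e : Fin ρ → Fin n) (F : Fin ρ → Finset (Finset (Fin n)))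
    (ω : Sym2 (Fin n) → Bool) (p : Fin ρ × Fin ρ) : Prop :=
  ω s(e p.1, e p.2) = true ∧ (Free ω (F p.1) (e p.2) ∧ Free ω (F p.2) (e p.1))

lemma UU_congr {n ρ : ℕ} {e : Fin ρ → Fin n} {F : Fin ρ → Finset (Finset (Fin n))}
    {ω ω' : Sym2 (Fin n) → Bool} {p : Fin ρ × Fin ρ}
    (h : ∀ x ∈ hull (e p.1) (F p.1), ∀ y ∈ hull (e p.2) (F p.2), ω s(x, y) = ω' s(x, y)) :
    UU e F ω p ↔ UU e F ω' p := by
  unfold UU
  rw [h _ (self_mem_hull _ _) _ (self_mem_hull _ _)]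
  rw [free_congr (ω := ω) (ω' := ω') (F := F p.1) (w := e p.2), free_congr (ω := ω) (ω' := ω') (F := F p.2) (w := e p.1)]
  · intro Y hY y hy
    exact h _ (self_mem_hull _ _) _ (mem_hull_of_mem hY hy)
  · intro Y hY y hy
    rw [Sym2.eq_swap]
    exact h _ (mem_hull_of_mem hY hy) _ (self_mem_hull _ _)

lemma Pr_UU {n ρ : ℕ} {e : Fin ρ → Fin n} {F : Fin ρ → Finset (Finset (Fin n))} (hc : Cond e F)
    (p : Fin ρ × Fin ρ) (hp : p.1 ≠ p.2) :
    (1 / 2) ^ 63 ≤ Pr (fun ω : Sym2 (Fin n) → Bool => UU e F ω p) := by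
  have hd := hc.disj _ _ hp
  have hee : e p.1 ≠ e p.2 := by
    intro h
    exact Finset.disjoint_left.1 hd (self_mem_hull _ _) (h ▸ self_mem_hull _ _)
  unfold UU
  rw [Pr_and (S := {s(e p.1, e p.2)})
    (T := {s | (∃ Y ∈ F p.1, ∃ y ∈ Y, s = s(e p.2, y)) ∨ (∃ Y ∈ F p.2, ∃ y ∈ Y, s = s(e p.1, y))}),
    Pr_and (S := {s | ∃ Y ∈ F p.1, ∃ y ∈ Y, s = s(e p.2, y)})
    (T := {s | ∃ Y ∈ F p.2, ∃ y ∈ Y, s = s(e p.1, y)}), Pr_single]
  · have h1 := Pr_free (F p.1) (e p.2) (hc.ne p.1) (hc.small p.1) (hc.sum p.1)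
    have h2 := Pr_free (F p.2) (e p.1) (hc.ne p.2) (hc.small p.2) (hc.sum p.2)
    have h3 := mul_le_mul h1 h2 (by positivity) (Pr_nonneg _)
    calc ((1 : ℝ) / 2) ^ 63 = 1 / 2 * ((1 / 2) ^ 31 * (1 / 2) ^ 31) := by norm_num
      _ ≤ _ := mul_le_mul_of_nonneg_left h3 (by norm_num)
  · rw [Set.disjoint_left]
    rintro s ⟨Y, hY, y, hy, rfl⟩ ⟨Y', hY', y', hy', heq⟩
    rw [Sym2.eq_iff] at heq
    rcases heq with ⟨h, _⟩ | ⟨_, h⟩
    · exact hee h.symm
    · exact hc.notin _ Y hY (h ▸ hy)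
  · intro ω ω' h
    exact free_congr fun Y hY y hy => h _ ⟨Y, hY, y, hy, rfl⟩
  · intro ω ω' h
    exact free_congr fun Y hY y hy => h _ ⟨Y, hY, y, hy, rfl⟩
  · rw [Set.disjoint_left]
    rintro s hs hs'
    rw [Set.mem_singleton_iff] at hs
    subst hs
    rcases hs' with ⟨Y, hY, y, hy, heq⟩ | ⟨Y, hY, y, hy, heq⟩
    · rw [Sym2.eq_iff] at heq
      rcases heq with ⟨h, _⟩ | ⟨h, _⟩
      · exact hee h
      · exact hc.notin _ Y hY (h ▸ hy)
    · have h := Sym2.congr_right.1 heq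
      exact hc.notin _ Y hY (h ▸ hy)
  · intro ω ω' h
    rw [h _ rfl]
  · intro ω ω' h
    rw [free_congr (ω := ω) (ω' := ω') (F := F p.1) (w := e p.2), free_congr (ω := ω) (ω' := ω') (F := F p.2) (w := e p.1)]
    · exact fun Y hY y hy => h _ (Or.inr ⟨Y, hY, y, hy, rfl⟩)
    · exact fun Y hY y hy => h _ (Or.inl ⟨Y, hY, y, hy, rfl⟩)

/-- Ordered pairs. -/
noncomputable def prs (ρ : ℕ) : Finset (Fin ρ × Fin ρ) := Finset.univ.filter (fun p => p.1 < p.2)

lemma card_prs (ρ : ℕ) : 2 * #(prs ρ) + ρ = ρ ^ 2 := by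
  have h1 : #(Finset.univ : Finset (Fin ρ × Fin ρ)) = ρ ^ 2 := by simp [sq]
  have h2 : (Finset.univ : Finset (Fin ρ × Fin ρ)) =
      prs ρ ∪ (Finset.univ.filter (fun p => p.2 < p.1) ∪ Finset.univ.filter (fun p => p.1 = p.2)) := by
    ext p
    simp only [prs, Finset.mem_univ, Finset.mem_union, Finset.mem_filter, true_and, true_iff]
    rcases lt_trichotomy p.1 p.2 with h | h | h <;> simp [h]
  have h3 : #(Finset.univ.filter (fun p : Fin ρ × Fin ρ => p.2 < p.1)) = #(prs ρ) := by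
    refine Finset.card_bij (fun p _ => (p.2, p.1)) ?_ ?_ ?_
    · intro p hp; simpa [prs] using hp
    · rintro ⟨a, b⟩ _ ⟨c, d⟩ _ h
      simp only [Prod.mk.injEq] at h ⊢
      exact ⟨h.2, h.1⟩
    · rintro ⟨a, b⟩ h
      exact ⟨(b, a), by simpa [prs] using h, rfl⟩
  have h4 : #(Finset.univ.filter (fun p : Fin ρ × Fin ρ => p.1 = p.2)) = ρ := by
    have : Finset.univ.filter (fun p : Fin ρ × Fin ρ => p.1 = p.2) =
        Finset.univ.image (fun i : Fin ρ => (i, i)) := by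
      ext ⟨a, b⟩
      simp only [Finset.mem_filter, Finset.mem_univ, true_and, Finset.mem_image, Prod.mk.injEq]
      constructor
      · rintro rfl; exact ⟨a, rfl, rfl⟩
      · rintro ⟨c, rfl, rfl⟩; rfl
    rw [this, Finset.card_image_of_injective _ (fun a b h => (Prod.mk.inj h).1)]
    simp
  rw [← h1, h2, Finset.card_union_of_disjoint, Finset.card_union_of_disjoint, h3, h4]
  · ring
  · rw [Finset.disjoint_left]
    intro p hp hp'
    simp only [Finset.mem_filter, Finset.mem_univ, true_and] at hp hp'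
    exact absurd hp' (ne_of_gt hp)
  · rw [Finset.disjoint_left]
    intro p hp hp'
    simp only [prs, Finset.mem_filter, Finset.mem_univ, true_and, Finset.mem_union] at hp hp'
    rcases hp' with h | h
    · exact absurd h (lt_asymm hp)
    · exact absurd h (ne_of_lt hp)

lemma Pr_few {n ρ : ℕ} {e : Fin ρ → Fin n} {F : Fin ρ → Finset (Finset (Fin n))} (hc : Cond e F)
    (x : ℝ) :
    Pr (fun ω : Sym2 (Fin n) → Bool => (#((prs ρ).filter (fun p => UU e F ω p)) : ℝ) < x) ≤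
      Real.exp (x - (1 / 2) ^ 64 * #(prs ρ)) := by
  have h1 := Ex_prod_le (ι := Sym2 (Fin n)) (prs ρ)
    (fun p => {s | ∃ x ∈ hull (e p.1) (F p.1), ∃ y ∈ hull (e p.2) (F p.2), s = s(x, y)})
    (fun p ω => 1 - (1 / 2) * (@ite ℝ (UU e F ω p) (Classical.propDecidable _) 1 0)) ?_ ?_ ?_
    (1 - (1 / 2) ^ 64) ?_
  · have h2 : ∀ ω : Sym2 (Fin n) → Bool,
        (@ite ℝ ((#((prs ρ).filter (fun p => UU e F ω p)) : ℝ) < x) (Classical.propDecidable _) 1 0) ≤
        Real.exp x * ∏ p ∈ prs ρ, (1 - (1 / 2) * (@ite ℝ (UU e F ω p) (Classical.propDecidable _) 1 0)) := by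
      intro ω
      have h3 : ∏ p ∈ prs ρ, (1 - (1 / 2) * (@ite ℝ (UU e F ω p) (Classical.propDecidable _) 1 0)) =
          (1 / 2 : ℝ) ^ #((prs ρ).filter (fun p => UU e F ω p)) := by
        rw [← Finset.prod_const, Finset.prod_filter]
        refine Finset.prod_congr rfl fun p _ => ?_
        by_cases h : UU e F ω p
        · simp only [if_pos h]; norm_num
        · simp only [if_neg h]; norm_num
      rw [h3]
      by_cases h : (#((prs ρ).filter (fun p => UU e F ω p)) : ℝ) < x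
      · rw [if_pos h]
        have h4 : Real.exp (-1) ≤ 1 / 2 := by
          rw [Real.exp_neg, inv_le_comm₀ (Real.exp_pos _) (by norm_num)]
          have := Real.add_one_le_exp (1 : ℝ)
          norm_num at this ⊢
          linarith
        have h5 : Real.exp (-1) ^ #((prs ρ).filter (fun p => UU e F ω p)) ≤
            (1 / 2) ^ #((prs ρ).filter (fun p => UU e F ω p)) :=
          pow_le_pow_left₀ (Real.exp_pos _).le h4 _
        rw [← Real.exp_nat_mul] at h5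
        calc (1 : ℝ) ≤ Real.exp x * Real.exp (#((prs ρ).filter (fun p => UU e F ω p)) * -1) := by
              rw [← Real.exp_add]
              exact Real.one_le_exp (by linarith)
          _ ≤ _ := mul_le_mul_of_nonneg_left h5 (Real.exp_pos _).le
      · rw [if_neg h]
        positivity
    calc Pr (fun ω : Sym2 (Fin n) → Bool => (#((prs ρ).filter (fun p => UU e F ω p)) : ℝ) < x) ≤
        Ex (fun ω : Sym2 (Fin n) → Bool => Real.exp x *
          ∏ p ∈ prs ρ, (1 - (1 / 2) * (@ite ℝ (UU e F ω p) (Classical.propDecidable _) 1 0))) :=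
          Ex_mono h2
      _ ≤ Real.exp x * (1 - (1 / 2) ^ 64) ^ #(prs ρ) := by
          rw [Ex_mul_left]
          exact mul_le_mul_of_nonneg_left h1 (Real.exp_pos _).le
      _ ≤ Real.exp x * Real.exp (-((1 / 2) ^ 64)) ^ #(prs ρ) := by
          have h5 : (1 : ℝ) - (1 / 2) ^ 64 ≤ Real.exp (-((1 / 2) ^ 64)) := by
            have := Real.add_one_le_exp (-((1 / 2 : ℝ) ^ 64))
            linarith
          have h6 : (0 : ℝ) ≤ 1 - (1 / 2) ^ 64 := by norm_num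
          exact mul_le_mul_of_nonneg_left (pow_le_pow_left₀ h6 h5 _) (Real.exp_pos _).le
      _ = _ := by
          rw [← Real.exp_nat_mul, ← Real.exp_add]
          congr 1
          ring
  · intro p hp p' hp' hne
    rw [Set.disjoint_left]
    rintro s ⟨x, hx, y, hy, rfl⟩ ⟨x', hx', y', hy', heq⟩
    simp only [prs, Finset.mem_filter, Finset.mem_univ, true_and] at hp hp'
    have key : ∀ i j : Fin ρ, ∀ z, z ∈ hull (e i) (F i) → z ∈ hull (e j) (F j) → i = j := by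
      intro i j z hi hj
      by_contra hij
      exact Finset.disjoint_left.1 (hc.disj i j hij) hi hj
    rw [Sym2.eq_iff] at heq
    rcases heq with ⟨rfl, rfl⟩ | ⟨rfl, rfl⟩
    · exact hne (Prod.ext (key _ _ _ hx hx') (key _ _ _ hy hy'))
    · have e1 := key _ _ _ hx hy'
      have e2 := key _ _ _ hy hx'
      rw [e1, e2] at hp
      exact lt_asymm hp hp'
  · intro p _ ω ω' h
    simp only
    have : UU e F ω p ↔ UU e F ω' p :=
      UU_congr fun x hx y hy => h _ ⟨x, hx, y, hy, rfl⟩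
    by_cases h' : UU e F ω p
    · rw [if_pos h', if_pos (this.1 h')]
    · rw [if_neg h', if_neg (mt this.2 h')]
  · intro p _ ω
    split_ifs <;> norm_num
  · intro p hp
    have h2 := Pr_UU hc p (ne_of_lt (by simpa [prs] using hp))
    rw [Ex_sub, Ex_const, Ex_mul_left]
    change 1 - 1 / 2 * Pr (fun ω : Sym2 (Fin n) → Bool => UU e F ω p) ≤ _
    have h3 : ((1 : ℝ) / 2) ^ 64 = 1 / 2 * (1 / 2) ^ 63 := by norm_num
    rw [h3]
    linarith

/-- The allowed families. -/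
noncomputable def fams (n a D : ℕ) : Finset (Finset (Finset (Fin n))) :=
  (((univ : Finset (Fin n)).powerset.filter (fun t => #t ≤ a)).powerset).filter (fun t => #t ≤ D)

lemma mem_fams {n a D : ℕ} {F : Finset (Finset (Fin n))} :
    F ∈ fams n a D ↔ (∀ Y ∈ F, #Y ≤ a) ∧ #F ≤ D := by
  unfold fams
  rw [Finset.mem_filter, Finset.mem_powerset]
  refine and_congr_left fun _ => ?_
  constructor
  · intro h Y hY
    exact (Finset.mem_filter.1 (h hY)).2
  · intro h Y hY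
    exact Finset.mem_filter.2 ⟨by simp, h Y hY⟩

lemma card_fams (n a D : ℕ) (hn : 1 ≤ n) : #(fams n a D) ≤ (n + 1) ^ ((a + 1) * D) := by
  unfold fams
  refine (card_small _ _).trans ?_
  rw [pow_mul]
  refine Nat.pow_le_pow_left ?_ _
  have h1 := card_small (univ : Finset (Fin n)) a
  rw [Finset.card_univ, Fintype.card_fin] at h1
  have h2 : 1 ≤ (n + 1) ^ a := Nat.one_le_pow _ _ (by omega)
  calc _ ≤ (n + 1) ^ a + 1 := by omega
    _ ≤ (n + 1) ^ a + n * (n + 1) ^ a := by nlinarith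
    _ = _ := by ring

/-- Union bound. -/
lemma Pr_badU (n ρ a D : ℕ) (hn : 1 ≤ n) (hρ : 2 ≤ ρ) :
    Pr (fun ω : Sym2 (Fin n) → Bool => ∃ e : Fin ρ → Fin n, ∃ F : Fin ρ → Finset (Finset (Fin n)),
      (∀ i, F i ∈ fams n a D) ∧ Cond e F ∧
      (#((prs ρ).filter (fun p => UU e F ω p)) : ℝ) < (1 / 2) ^ 67 * (ρ : ℝ) ^ 2) ≤
      (((n : ℝ) + 1) ^ (1 + (a + 1) * D)) ^ ρ * Real.exp (-((1 / 2) ^ 67 * (ρ : ℝ) ^ 2)) := by
  set c : ℝ := Real.exp (-((1 / 2) ^ 67 * (ρ : ℝ) ^ 2)) with hcdef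
  have h0 : Pr (fun ω : Sym2 (Fin n) → Bool => ∃ e : Fin ρ → Fin n,
      ∃ F : Fin ρ → Finset (Finset (Fin n)),
      (∀ i, F i ∈ fams n a D) ∧ Cond e F ∧
      (#((prs ρ).filter (fun p => UU e F ω p)) : ℝ) < (1 / 2) ^ 67 * (ρ : ℝ) ^ 2) ≤
      Pr (fun ω : Sym2 (Fin n) → Bool =>
        ∃ k ∈ (univ : Finset (Fin ρ → Fin n)) ×ˢ Fintype.piFinset (fun _ : Fin ρ => fams n a D),
        Cond k.1 k.2 ∧
        (#((prs ρ).filter (fun p => UU k.1 k.2 ω p)) : ℝ) < (1 / 2) ^ 67 * (ρ : ℝ) ^ 2) := by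
    refine Pr_mono fun ω => ?_
    rintro ⟨e, F, h1, h2, h3⟩
    exact ⟨(e, F), Finset.mem_product.2 ⟨Finset.mem_univ _, Fintype.mem_piFinset.2 h1⟩, h2, h3⟩
  refine h0.trans ((Pr_union _ _).trans ?_)
  have h1 : ∀ k ∈ (univ : Finset (Fin ρ → Fin n)) ×ˢ Fintype.piFinset (fun _ : Fin ρ => fams n a D),
      Pr (fun ω : Sym2 (Fin n) → Bool => Cond k.1 k.2 ∧
        (#((prs ρ).filter (fun p => UU k.1 k.2 ω p)) : ℝ) < (1 / 2) ^ 67 * (ρ : ℝ) ^ 2) ≤ c := by
    intro k _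
    by_cases hk : Cond k.1 k.2
    · refine le_trans (Pr_mono fun ω h => h.2) ((Pr_few hk _).trans ?_)
      rw [hcdef]
      apply Real.exp_le_exp.2
      have h2 : (2 : ℝ) * #(prs ρ) + ρ = (ρ : ℝ) ^ 2 := by exact_mod_cast card_prs ρ
      have h3 : (2 : ℝ) ≤ ρ := by exact_mod_cast hρ
      have h4 : (ρ : ℝ) ^ 2 / 4 ≤ #(prs ρ) := by nlinarith
      have h5 : ((1 : ℝ) / 2) ^ 64 * (ρ ^ 2 / 4) ≤ (1 / 2) ^ 64 * #(prs ρ) :=
        mul_le_mul_of_nonneg_left h4 (by positivity)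
      have h6 : ((1 : ℝ) / 2) ^ 64 * (ρ ^ 2 / 4) = 2 * ((1 / 2) ^ 67 * ρ ^ 2) := by ring
      linarith
    · have : Pr (fun ω : Sym2 (Fin n) → Bool => Cond k.1 k.2 ∧
        (#((prs ρ).filter (fun p => UU k.1 k.2 ω p)) : ℝ) < (1 / 2) ^ 67 * (ρ : ℝ) ^ 2) ≤
        Ex (fun _ : Sym2 (Fin n) → Bool => (0 : ℝ)) := by
        refine Ex_mono fun ω => ?_
        rw [if_neg fun h => hk h.1]
      rw [Ex_const] at this
      exact this.trans (Real.exp_pos _).le
  refine (Finset.sum_le_sum h1).trans ?_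
  rw [Finset.sum_const, nsmul_eq_mul]
  refine mul_le_mul_of_nonneg_right ?_ (Real.exp_pos _).le
  rw [Finset.card_product, Finset.card_univ, Fintype.card_fun, Fintype.card_piFinset_const]
  simp only [Fintype.card_fin]
  have h2 := card_fams n a D hn
  have h3 : n ^ ρ * #(fams n a D) ^ ρ ≤ ((n + 1) ^ (1 + (a + 1) * D)) ^ ρ := by
    rw [← mul_pow]
    refine Nat.pow_le_pow_left ?_ _
    rw [pow_add, pow_one]
    exact Nat.mul_le_mul (by omega) h2
  exact_mod_cast h3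

end H2BC
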