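import Mathlib

set_option autoImplicit false

open Finset Classical

namespace H2BC

variable {V : Type}

lemma exists_color {q : ℕ} (hq : 0 < q) (f : V → Fin q) (g : V → ℝ) (S : Finset V) :
    ∃ c : Fin q, (q : ℝ) * ∑ y ∈ S, (if c = f y then g y else 0) ≤ ∑ y ∈ S, g y := by
  by_contra hcon
  push Not at hcon
  have : NeZero q := ⟨hq.ne'⟩
  have h1 : ∑ c : Fin q, ∑ y ∈ S, g y < ∑ c : Fin q, (q : ℝ) * ∑ y ∈ S, (if c = f y then g y else 0) :=
    Finset.sum_lt_sum_of_nonempty (Finset.univ_nonempty) fun c _ => hcon c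
  have h2 : ∑ c : Fin q, ∑ y ∈ S, (if c = f y then g y else 0) = ∑ y ∈ S, g y := by
    rw [Finset.sum_comm]
    refine Finset.sum_congr rfl fun y _ => ?_
    rw [Finset.sum_ite_eq']
    simp
  rw [← Finset.mul_sum, h2, Finset.sum_const, Finset.card_univ, Fintype.card_fin, nsmul_eq_mul] at h1
  exact lt_irrefl _ h1

lemma sum_insert_sq (a : V) (S : Finset V) (ha : a ∉ S) (g : V → V → ℝ) (h0 : g a a = 0) :
    ∑ x ∈ insert a S, ∑ y ∈ insert a S, g x y =
      (∑ y ∈ S, (g a y + g y a)) + ∑ x ∈ S, ∑ y ∈ S, g x y := by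
  rw [Finset.sum_insert ha, Finset.sum_insert ha, h0]
  have : ∑ x ∈ S, ∑ y ∈ insert a S, g x y = ∑ x ∈ S, (g x a + ∑ y ∈ S, g x y) :=
    Finset.sum_congr rfl fun x _ => Finset.sum_insert ha
  rw [this, Finset.sum_add_distrib, Finset.sum_add_distrib]
  ring

lemma coloring (q : ℕ) (hq : 0 < q) (w : V → V → ℝ) (S : Finset V) :
    ∃ f : V → Fin q, (q : ℝ) * ∑ x ∈ S, ∑ y ∈ S, (if x ≠ y ∧ f x = f y then w x y else 0) ≤
      ∑ x ∈ S, ∑ y ∈ S, (if x ≠ y then w x y else 0) := by
  induction S using Finset.induction_on with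
  | empty => exact ⟨fun _ => ⟨0, hq⟩, by simp⟩
  | insert a S ha ih =>
    obtain ⟨f, hf⟩ := ih
    obtain ⟨c, hc⟩ := exists_color hq f (fun y => w a y + w y a) S
    refine ⟨Function.update f a c, ?_⟩
    rw [sum_insert_sq a S ha _ (by simp), sum_insert_sq a S ha _ (by simp)]
    have h1 : ∑ x ∈ S, ∑ y ∈ S,
        (if x ≠ y ∧ Function.update f a c x = Function.update f a c y then w x y else 0) =
        ∑ x ∈ S, ∑ y ∈ S, (if x ≠ y ∧ f x = f y then w x y else 0) := by
      refine Finset.sum_congr rfl fun x hx => Finset.sum_congr rfl fun y hy => ?_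
      rw [Function.update_of_ne (by rintro rfl; exact ha hx),
        Function.update_of_ne (by rintro rfl; exact ha hy)]
    have h2 : ∑ y ∈ S, ((if a ≠ y ∧ Function.update f a c a = Function.update f a c y then w a y else 0) +
        (if y ≠ a ∧ Function.update f a c y = Function.update f a c a then w y a else 0)) =
        ∑ y ∈ S, (if c = f y then w a y + w y a else 0) := by
      refine Finset.sum_congr rfl fun y hy => ?_
      have hya : y ≠ a := by rintro rfl; exact ha hy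
      rw [Function.update_self, Function.update_of_ne hya]
      by_cases h : c = f y
      · simp [h, hya, hya.symm]
      · simp [h, Ne.symm h]
    have h3 : ∑ y ∈ S, ((if a ≠ y then w a y else 0) + (if y ≠ a then w y a else 0)) =
        ∑ y ∈ S, (w a y + w y a) := by
      refine Finset.sum_congr rfl fun y hy => ?_
      have hya : y ≠ a := by rintro rfl; exact ha hy
      simp [hya, hya.symm]
    rw [h1, h2, h3, mul_add]
    exact add_le_add hc hf

/-- Number of ordered pairs of distinct elements of `S` in the relation `P`. -/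
noncomputable def cnt (S : Finset V) (P : V → V → Prop) : ℝ :=
  ∑ x ∈ S, ∑ y ∈ S, (if x ≠ y ∧ P x y then 1 else 0)

lemma cnt_nonneg (S : Finset V) (P : V → V → Prop) : 0 ≤ cnt S P :=
  Finset.sum_nonneg fun _ _ => Finset.sum_nonneg fun _ _ => by split_ifs <;> norm_num

lemma cnt_mono {S T : Finset V} (h : S ⊆ T) (P : V → V → Prop) : cnt S P ≤ cnt T P := by
  unfold cnt
  refine (Finset.sum_le_sum fun x _ => Finset.sum_le_sum_of_subset_of_nonneg h
    fun y _ _ => by split_ifs <;> norm_num).trans ?_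
  exact Finset.sum_le_sum_of_subset_of_nonneg h
    fun x _ _ => Finset.sum_nonneg fun _ _ => by split_ifs <;> norm_num

lemma sum_fiber_cnt {q : ℕ} (f : V → Fin q) (S : Finset V) (P : V → V → Prop) :
    ∑ j : Fin q, cnt (S.filter (fun x => f x = j)) P =
      ∑ x ∈ S, ∑ y ∈ S, (if x ≠ y ∧ f x = f y then (if P x y then 1 else 0) else 0) := by
  unfold cnt
  have h1 : ∀ j : Fin q, ∑ x ∈ S.filter (fun x => f x = j), ∑ y ∈ S.filter (fun x => f x = j),
      (if x ≠ y ∧ P x y then (1 : ℝ) else 0) =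
      ∑ x ∈ S, ∑ y ∈ S, (if f x = j ∧ f y = j ∧ x ≠ y ∧ P x y then (1 : ℝ) else 0) := by
    intro j
    rw [Finset.sum_filter]
    refine Finset.sum_congr rfl fun x _ => ?_
    by_cases hx : f x = j
    · rw [if_pos hx, Finset.sum_filter]
      refine Finset.sum_congr rfl fun y _ => ?_
      by_cases hy : f y = j <;> simp [hx, hy]
    · simp [hx]
  simp only [h1]
  rw [Finset.sum_comm]
  refine Finset.sum_congr rfl fun x _ => ?_
  rw [Finset.sum_comm]
  refine Finset.sum_congr rfl fun y _ => ?_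
  by_cases h : f x = f y
  · have : ∀ j : Fin q, (if f x = j ∧ f y = j ∧ x ≠ y ∧ P x y then (1 : ℝ) else 0) =
        if f x = j then (if x ≠ y ∧ P x y then 1 else 0) else 0 := by
      intro j
      by_cases hj : f x = j
      · simp [hj, ← h]
      · simp [hj]
    simp only [this]
    rw [Finset.sum_ite_eq]
    by_cases h2 : x ≠ y <;> by_cases h3 : P x y <;> simp [h, h2, h3]
  · have : ∀ j : Fin q, (if f x = j ∧ f y = j ∧ x ≠ y ∧ P x y then (1 : ℝ) else 0) = 0 := by
      intro j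
      rw [if_neg]
      rintro ⟨h1, h2, _⟩
      exact h (h1.trans h2.symm)
    simp [this, h]

lemma exists_R (Ms : Finset V) (hMs : Ms.Nonempty) (conf drop : V → V → Prop) (q : ℕ) (Δ δ5 δ' : ℝ)
    (hq : 0 < q) (hC : cnt Ms conf ≤ Δ * #Ms) (hD : cnt Ms drop ≤ δ' * (#Ms : ℝ) ^ 2)
    (hqΔ : 8 * Δ ≤ q) (hδ5 : 0 < δ5) (hδ' : 16 * δ' ≤ δ5) :
    ∃ R ⊆ Ms, (#Ms : ℝ) ≤ 8 * q * #R ∧ (∀ x ∈ R, ∀ y ∈ R, x ≠ y → ¬ conf x y) ∧
      cnt R drop ≤ 4 * δ5 * (#R : ℝ) ^ 2 := by
  have hm : (0 : ℝ) < #Ms := by exact_mod_cast Finset.card_pos.2 hMs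
  have hq' : (0 : ℝ) < q := by exact_mod_cast hq
  set b : ℝ := 4 * q / (δ5 * #Ms) with hb
  have hb0 : 0 < b := by positivity
  obtain ⟨f, hf⟩ := coloring q hq (fun x y => 2 * (if conf x y then 1 else 0) +
    b * (if drop x y then 1 else 0)) Ms
  set Rj : Fin q → Finset V := fun j => Ms.filter (fun x => f x = j) with hRj
  -- total weight
  have htot : ∑ x ∈ Ms, ∑ y ∈ Ms, (if x ≠ y then 2 * (if conf x y then (1 : ℝ) else 0) +
      b * (if drop x y then 1 else 0) else 0) = 2 * cnt Ms conf + b * cnt Ms drop := by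
    unfold cnt
    rw [Finset.mul_sum, Finset.mul_sum, ← Finset.sum_add_distrib]
    refine Finset.sum_congr rfl fun x _ => ?_
    rw [Finset.mul_sum, Finset.mul_sum, ← Finset.sum_add_distrib]
    refine Finset.sum_congr rfl fun y _ => ?_
    by_cases h1 : x ≠ y <;> by_cases h2 : conf x y <;> by_cases h3 : drop x y <;> simp [h1, h2, h3]
  have hmono : ∑ x ∈ Ms, ∑ y ∈ Ms, (if x ≠ y ∧ f x = f y then
      2 * (if conf x y then (1 : ℝ) else 0) + b * (if drop x y then 1 else 0) else 0) =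
      2 * ∑ j, cnt (Rj j) conf + b * ∑ j, cnt (Rj j) drop := by
    rw [hRj, sum_fiber_cnt, sum_fiber_cnt]
    rw [Finset.mul_sum, Finset.mul_sum, ← Finset.sum_add_distrib]
    refine Finset.sum_congr rfl fun x _ => ?_
    rw [Finset.mul_sum, Finset.mul_sum, ← Finset.sum_add_distrib]
    refine Finset.sum_congr rfl fun y _ => ?_
    by_cases h1 : x ≠ y ∧ f x = f y
    · simp only [if_pos h1]
    · simp only [if_neg h1]; ring
  rw [htot, hmono] at hf
  -- a good class
  obtain ⟨j, h1, h2, h3⟩ : ∃ j, (#Ms : ℝ) / (4 * q) ≤ #(Rj j) ∧ 2 * cnt (Rj j) conf ≤ #(Rj j) ∧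
      b * cnt (Rj j) drop ≤ #(Rj j) := by
    by_contra hcon
    push Not at hcon
    have : NeZero q := ⟨hq.ne'⟩
    have h4 : ∀ j, (#(Rj j) : ℝ) < #Ms / (4 * q) + 2 * cnt (Rj j) conf + b * cnt (Rj j) drop := by
      intro j
      have e1 := cnt_nonneg (Rj j) conf
      have e2 := mul_nonneg hb0.le (cnt_nonneg (Rj j) drop)
      have e3 : 0 < (#Ms : ℝ) / (4 * q) := by positivity
      by_contra hlt
      push Not at hlt
      have := hcon j (by linarith) (by linarith)
      linarith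
    have h5 : ∑ j, (#(Rj j) : ℝ) <
        ∑ j : Fin q, (#Ms / (4 * q) + 2 * cnt (Rj j) conf + b * cnt (Rj j) drop) :=
      Finset.sum_lt_sum_of_nonempty Finset.univ_nonempty fun j _ => h4 j
    have h6 : ∑ j, (#(Rj j) : ℝ) = #Ms := by
      have := Finset.card_eq_sum_card_fiberwise (f := f) (s := Ms) (t := Finset.univ)
        (fun x _ => Finset.mem_coe.2 (Finset.mem_univ _))
      rw [this]
      push_cast
      rfl
    rw [h6, Finset.sum_add_distrib, Finset.sum_add_distrib, ← Finset.mul_sum, ← Finset.mul_sum,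
      Finset.sum_const, Finset.card_univ, Fintype.card_fin, nsmul_eq_mul] at h5
    have h7 : (q : ℝ) * (#Ms / (4 * q)) = #Ms / 4 := by field_simp
    have h8 : 2 * ∑ j, cnt (Rj j) conf + b * ∑ j, cnt (Rj j) drop ≤
        (2 * cnt Ms conf + b * cnt Ms drop) / q := by
      rw [le_div_iff₀ hq']; linarith
    have h9 : (2 * cnt Ms conf + b * cnt Ms drop) / q ≤ #Ms / 2 := by
      rw [div_le_iff₀ hq']
      have e1 : b * cnt Ms drop ≤ b * (δ' * (#Ms : ℝ) ^ 2) := mul_le_mul_of_nonneg_left hD hb0.le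
      have e2 : b * (δ' * (#Ms : ℝ) ^ 2) = 4 * q * #Ms * (δ' / δ5) := by
        rw [hb]; field_simp
      have e3 : δ' / δ5 ≤ 1 / 16 := by
        rw [div_le_div_iff₀ hδ5 (by norm_num)]; linarith
      have e4 : 4 * q * #Ms * (δ' / δ5) ≤ 4 * q * #Ms * (1 / 16) :=
        mul_le_mul_of_nonneg_left e3 (by positivity)
      nlinarith
    linarith
  set R := (Rj j).filter (fun x => ∀ y ∈ Rj j, x ≠ y → ¬ conf x y) with hR
  have hRsub : R ⊆ Rj j := Finset.filter_subset _ _
  have h4 : (#(Rj j) : ℝ) - #R ≤ cnt (Rj j) conf := by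
    have e1 : #(Rj j) = #R + #((Rj j).filter (fun x => ¬ ∀ y ∈ Rj j, x ≠ y → ¬ conf x y)) :=
      (Finset.card_filter_add_card_filter_not _).symm
    have e2 : (#((Rj j).filter (fun x => ¬ ∀ y ∈ Rj j, x ≠ y → ¬ conf x y)) : ℝ) ≤
        cnt (Rj j) conf := by
      rw [Finset.card_filter]
      push_cast
      unfold cnt
      refine Finset.sum_le_sum fun x hx => ?_
      by_cases h : ∀ y ∈ Rj j, x ≠ y → ¬ conf x y
      · rw [if_neg (not_not.2 h)]
        exact Finset.sum_nonneg fun _ _ => by split_ifs <;> norm_num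
      · rw [if_pos h]
        push Not at h
        obtain ⟨y, hy, hxy, hc⟩ := h
        calc (1 : ℝ) = if x ≠ y ∧ conf x y then 1 else 0 := by rw [if_pos ⟨hxy, hc⟩]
          _ ≤ _ := Finset.single_le_sum (f := fun y => if x ≠ y ∧ conf x y then (1 : ℝ) else 0)
            (fun _ _ => by split_ifs <;> norm_num) hy
    have e3 : (#(Rj j) : ℝ) = #R + #((Rj j).filter (fun x => ¬ ∀ y ∈ Rj j, x ≠ y → ¬ conf x y)) := by
      exact_mod_cast e1
    linarith
  have h5 : (#(Rj j) : ℝ) ≤ 2 * #R := by linarith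
  refine ⟨R, hRsub.trans (Finset.filter_subset _ _), ?_, ?_, ?_⟩
  · rw [div_le_iff₀ (by positivity)] at h1
    nlinarith
  · intro x hx y hy hxy
    rw [hR, Finset.mem_filter] at hx
    exact hx.2 y (hRsub hy) hxy
  · have e1 : cnt R drop ≤ cnt (Rj j) drop := cnt_mono hRsub _
    have e2 : cnt (Rj j) drop ≤ #(Rj j) / b := by
      rw [le_div_iff₀ hb0]; linarith
    have e3 : (#(Rj j) : ℝ) / b ≤ δ5 * (#(Rj j) : ℝ) ^ 2 := by
      rw [div_le_iff₀ hb0, hb]
      rw [div_le_iff₀ (by positivity)] at h1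
      have : δ5 * (#(Rj j) : ℝ) ^ 2 * (4 * q / (δ5 * #Ms)) =
          (#(Rj j) : ℝ) * ((#(Rj j) : ℝ) * (4 * q)) / #Ms := by field_simp
      rw [this, le_div_iff₀ hm]
      exact mul_le_mul_of_nonneg_left h1 (by positivity)
    have e4 : (#(Rj j) : ℝ) ^ 2 ≤ (2 * #R) ^ 2 := by
      have : (0 : ℝ) ≤ #(Rj j) := by positivity
      gcongr
    nlinarith

end H2BC
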