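import Mathlib
import Pool.Agent.H2BC.LemU
import Pool.Agent.H2BC.Part

set_option autoImplicit false

open Finset Classical

namespace H2BC

variable {n r : ℕ}

lemma dc (X : Finset (Fin n)) (Sm : Finset (Fin r)) (T : Fin r → Finset (Fin n)) (g : Fin r → ℝ)
    (hg : ∀ i ∈ Sm, 0 ≤ g i) :
    ∑ x ∈ X, ∑ i ∈ Sm.filter (fun i => x ∈ T i), g i ≤ ∑ i ∈ Sm, (#(T i) : ℝ) * g i := by
  simp only [Finset.sum_filter]
  rw [Finset.sum_comm]
  refine Finset.sum_le_sum fun i hi => ?_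
  rw [← Finset.sum_filter, Finset.sum_const, nsmul_eq_mul]
  refine mul_le_mul_of_nonneg_right ?_ (hg i hi)
  have : X.filter (fun x => x ∈ T i) ⊆ T i := fun x hx => (Finset.mem_filter.1 hx).2
  exact_mod_cast Finset.card_le_card this

/-- The hubs. -/
noncomputable def hubs (Sm : Finset (Fin r)) (T : Fin r → Finset (Fin n)) (D : ℕ) : Finset (Fin n) :=
  Finset.univ.filter fun x => D < #(Sm.filter (fun i => x ∈ T i))

lemma card_hubs (Sm : Finset (Fin r)) (T : Fin r → Finset (Fin n)) (D a : ℕ)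
    (hT : ∀ i ∈ Sm, #(T i) ≤ a) : (#(hubs Sm T D) : ℝ) * D ≤ a * #Sm := by
  have h1 := dc (hubs Sm T D) Sm T (fun _ => 1) (fun _ _ => zero_le_one)
  have h2 : ∑ x ∈ hubs Sm T D, (D : ℝ) ≤
      ∑ x ∈ hubs Sm T D, ∑ i ∈ Sm.filter (fun i => x ∈ T i), (1 : ℝ) := by
    refine Finset.sum_le_sum fun x hx => ?_
    rw [Finset.sum_const, nsmul_eq_mul, mul_one]
    have := (Finset.mem_filter.1 hx).2
    exact_mod_cast this.le
  rw [Finset.sum_const, nsmul_eq_mul] at h2
  have h3 : ∑ i ∈ Sm, (#(T i) : ℝ) * 1 ≤ ∑ i ∈ Sm, (a : ℝ) :=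
    Finset.sum_le_sum fun i hi => by rw [mul_one]; exact_mod_cast hT i hi
  rw [Finset.sum_const, nsmul_eq_mul] at h3
  linarith

/-- The family of a vertex. -/
noncomputable def fam (J : Finset (Fin r)) (T : Fin r → Finset (Fin n)) (v : Fin n) :
    Finset (Finset (Fin n)) :=
  (J.filter (fun i => v ∈ T i)).image fun i => (T i).erase v

lemma mem_fam {J : Finset (Fin r)} {T : Fin r → Finset (Fin n)} {v : Fin n} {Y : Finset (Fin n)} :
    Y ∈ fam J T v ↔ ∃ i ∈ J, v ∈ T i ∧ (T i).erase v = Y := by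
  simp [fam, and_assoc]

lemma pow_aux (k : ℕ) (hk : 3 ≤ k) : (k : ℝ) * (1 / 2) ^ (k - 1) ≤ 3 / 4 := by
  obtain ⟨j, rfl⟩ := Nat.exists_eq_add_of_le hk
  induction j with
  | zero => norm_num
  | succ j ih =>
    have h1 := ih (by omega)
    have e1 : 3 + (j + 1) - 1 = (3 + j - 1) + 1 := by omega
    rw [e1, pow_succ]
    have h2 : (0 : ℝ) < (1 / 2) ^ (3 + j - 1) := by positivity
    push_cast at h1 ⊢
    nlinarith

lemma sum_fam (M : Finset (Fin n)) (J : Finset (Fin r)) (T : Fin r → Finset (Fin n)) :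
    ∑ v ∈ M, ∑ Y ∈ (fam J T v).filter (fun Y => 2 ≤ #Y), ((1 : ℝ) / 2) ^ #Y ≤ 3 / 4 * #J := by
  have h1 : ∀ v ∈ M, ∑ Y ∈ (fam J T v).filter (fun Y => 2 ≤ #Y), ((1 : ℝ) / 2) ^ #Y ≤
      ∑ i ∈ J.filter (fun i => v ∈ T i), (if 3 ≤ #(T i) then ((1 : ℝ) / 2) ^ (#(T i) - 1) else 0) := by
    intro v _
    rw [Finset.sum_filter]
    unfold fam
    refine (Finset.sum_image_le_of_nonneg (fun Y _ => by positivity)).trans (le_of_eq ?_)
    refine Finset.sum_congr rfl fun i hi => ?_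
    have hv := (Finset.mem_filter.1 hi).2
    rw [Finset.card_erase_of_mem hv]
    have hpos : 0 < #(T i) := Finset.card_pos.2 ⟨v, hv⟩
    by_cases h : 3 ≤ #(T i)
    · rw [if_pos h, if_pos (by omega)]
    · rw [if_neg h, if_neg (by omega)]
  refine (Finset.sum_le_sum h1).trans ((dc M J T _ fun i _ => by positivity).trans ?_)
  have h2 : ∀ i ∈ J, (#(T i) : ℝ) * (if 3 ≤ #(T i) then ((1 : ℝ) / 2) ^ (#(T i) - 1) else 0) ≤ 3 / 4 := by
    intro i _
    by_cases h : 3 ≤ #(T i)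
    · rw [if_pos h]; exact pow_aux _ h
    · rw [if_neg h]; norm_num
  refine (Finset.sum_le_sum h2).trans (le_of_eq ?_)
  rw [Finset.sum_const, nsmul_eq_mul]; ring

lemma small_fam (M : Finset (Fin n)) (J : Finset (Fin r)) (T : Fin r → Finset (Fin n)) :
    ∑ v ∈ M, (#((fam J T v).filter (fun Y => #Y = 1)) : ℝ) ≤ 2 * #J := by
  have h1 : ∀ v ∈ M, (#((fam J T v).filter (fun Y => #Y = 1)) : ℝ) ≤
      ∑ i ∈ J.filter (fun i => v ∈ T i), (if #(T i) = 2 then (1 : ℝ) else 0) := by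
    intro v _
    have e1 : (#((fam J T v).filter (fun Y => #Y = 1)) : ℝ) =
        ∑ Y ∈ (fam J T v), (if #Y = 1 then (1 : ℝ) else 0) := by
      rw [Finset.sum_boole]
    rw [e1]
    unfold fam
    refine (Finset.sum_image_le_of_nonneg (fun Y _ => by positivity)).trans (le_of_eq ?_)
    refine Finset.sum_congr rfl fun i hi => ?_
    have hv := (Finset.mem_filter.1 hi).2
    rw [Finset.card_erase_of_mem hv]
    have hpos : 0 < #(T i) := Finset.card_pos.2 ⟨v, hv⟩
    by_cases h : #(T i) = 2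
    · rw [if_pos h, if_pos (by omega)]
    · rw [if_neg h, if_neg (by omega)]
  refine (Finset.sum_le_sum h1).trans ((dc M J T _ fun i _ => by positivity).trans ?_)
  have h2 : ∀ i ∈ J, (#(T i) : ℝ) * (if #(T i) = 2 then (1 : ℝ) else 0) ≤ 2 := by
    intro i _
    by_cases h : #(T i) = 2
    · rw [if_pos h, h]; norm_num
    · rw [if_neg h]; norm_num
  refine (Finset.sum_le_sum h2).trans (le_of_eq ?_)
  rw [Finset.sum_const, nsmul_eq_mul]; ring

/-- The good vertices. -/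
noncomputable def goodv (M : Finset (Fin n)) (J : Finset (Fin r)) (T : Fin r → Finset (Fin n)) :
    Finset (Fin n) :=
  M.filter fun v => #((fam J T v).filter (fun Y => #Y = 1)) ≤ 28 ∧
    ∑ Y ∈ (fam J T v).filter (fun Y => 2 ≤ #Y), ((1 : ℝ) / 2) ^ #Y ≤ 7 / 8

lemma card_goodv (M : Finset (Fin n)) (J : Finset (Fin r)) (T : Fin r → Finset (Fin n))
    (hJ : #J ≤ #M) : (#M : ℝ) ≤ 14 * #(goodv M J T) := by
  set B1 := M.filter fun v => ¬ #((fam J T v).filter (fun Y => #Y = 1)) ≤ 28 with hB1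
  set B2 := M.filter fun v =>
    ¬ ∑ Y ∈ (fam J T v).filter (fun Y => 2 ≤ #Y), ((1 : ℝ) / 2) ^ #Y ≤ 7 / 8 with hB2
  have h1 : M ⊆ goodv M J T ∪ (B1 ∪ B2) := by
    intro v hv
    simp only [goodv, hB1, hB2, Finset.mem_union, Finset.mem_filter, hv, true_and]
    tauto
  have h2 : #M ≤ #(goodv M J T) + (#B1 + #B2) :=
    (Finset.card_le_card h1).trans ((Finset.card_union_le _ _).trans
      (Nat.add_le_add_left (Finset.card_union_le _ _) _))
  have h3 : (#B1 : ℝ) * 29 ≤ 2 * #J := by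
    refine le_trans ?_ (small_fam M J T)
    refine le_trans ?_ (Finset.sum_le_sum_of_subset_of_nonneg (Finset.filter_subset _ _ : B1 ⊆ M)
      fun _ _ _ => by positivity)
    rw [← nsmul_eq_mul, ← Finset.sum_const]
    refine Finset.sum_le_sum fun v hv => ?_
    have := (Finset.mem_filter.1 hv).2
    push Not at this
    exact_mod_cast this
  have h4 : (#B2 : ℝ) * (7 / 8) ≤ 3 / 4 * #J := by
    refine le_trans ?_ (sum_fam M J T)
    refine le_trans ?_ (Finset.sum_le_sum_of_subset_of_nonneg (Finset.filter_subset _ _ : B2 ⊆ M)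
      fun _ _ _ => Finset.sum_nonneg fun _ _ => by positivity)
    rw [← nsmul_eq_mul, ← Finset.sum_const]
    refine Finset.sum_le_sum fun v hv => ?_
    have := (Finset.mem_filter.1 hv).2
    push Not at this
    exact this.le
  have h5 : (#M : ℝ) ≤ #(goodv M J T) + (#B1 + #B2) := by exact_mod_cast h2
  have h6 : (#J : ℝ) ≤ #M := by exact_mod_cast hJ
  linarith

lemma card_fam (J : Finset (Fin r)) (T : Fin r → Finset (Fin n)) (D : ℕ)
    (hD : ∀ x, #(J.filter (fun i => x ∈ T i)) ≤ D) (v : Fin n) : #(fam J T v) ≤ D :=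
  Finset.card_image_le.trans (hD v)

lemma card_hull (J : Finset (Fin r)) (T : Fin r → Finset (Fin n)) (D a : ℕ)
    (hT : ∀ i ∈ J, #(T i) ≤ a) (hD : ∀ x, #(J.filter (fun i => x ∈ T i)) ≤ D) (v : Fin n) :
    #(hull v (fam J T v)) ≤ 1 + a * D := by
  unfold hull
  refine (Finset.card_insert_le _ _).trans ?_
  have h1 : #((fam J T v).biUnion id) ≤ #(fam J T v) * a := by
    refine Finset.card_biUnion_le_card_mul _ _ _ fun Y hY => ?_
    obtain ⟨i, hi, _, rfl⟩ := mem_fam.1 hY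
    exact (Finset.card_le_card (Finset.erase_subset _ _)).trans (hT i hi)
  have h2 := Nat.mul_le_mul_right a (card_fam J T D hD v)
  nlinarith

lemma card_conf (J : Finset (Fin r)) (T : Fin r → Finset (Fin n)) (D a : ℕ)
    (hT : ∀ i ∈ J, #(T i) ≤ a) (hD : ∀ x, #(J.filter (fun i => x ∈ T i)) ≤ D) (v : Fin n)
    (X : Finset (Fin n)) :
    #(X.filter (fun w => ¬ Disjoint (hull v (fam J T v)) (hull w (fam J T w)))) ≤
      (1 + a * D) * (1 + a * D) := by
  have h1 : X.filter (fun w => ¬ Disjoint (hull v (fam J T v)) (hull w (fam J T w))) ⊆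
      (hull v (fam J T v)).biUnion fun x => insert x ((J.filter (fun i => x ∈ T i)).biUnion T) := by
    intro w hw
    have := (Finset.mem_filter.1 hw).2
    rw [Finset.not_disjoint_iff] at this
    obtain ⟨x, hx, hx'⟩ := this
    rw [Finset.mem_biUnion]
    refine ⟨x, hx, ?_⟩
    unfold hull at hx'
    rw [Finset.mem_insert, Finset.mem_biUnion] at hx'
    rcases hx' with rfl | ⟨Y, hY, hxY⟩
    · exact Finset.mem_insert_self _ _
    · refine Finset.mem_insert_of_mem ?_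
      obtain ⟨i, hi, hwi, rfl⟩ := mem_fam.1 hY
      rw [Finset.mem_biUnion]
      exact ⟨i, Finset.mem_filter.2 ⟨hi, Finset.mem_of_mem_erase hxY⟩, hwi⟩
  refine (Finset.card_le_card h1).trans ?_
  refine (Finset.card_biUnion_le_card_mul _ _ (1 + a * D) fun x _ => ?_).trans
    (Nat.mul_le_mul_right _ (card_hull J T D a hT hD v))
  refine (Finset.card_insert_le _ _).trans ?_
  have h2 : #((J.filter (fun i => x ∈ T i)).biUnion T) ≤ #(J.filter (fun i => x ∈ T i)) * a :=
    Finset.card_biUnion_le_card_mul _ _ _ fun i hi => hT i (Finset.mem_filter.1 hi).1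
  have h3 := Nat.mul_le_mul_right a (hD x)
  nlinarith

lemma cnt_conf (J : Finset (Fin r)) (T : Fin r → Finset (Fin n)) (D a : ℕ)
    (hT : ∀ i ∈ J, #(T i) ≤ a) (hD : ∀ x, #(J.filter (fun i => x ∈ T i)) ≤ D)
    (X : Finset (Fin n)) :
    cnt X (fun v w => ¬ Disjoint (hull v (fam J T v)) (hull w (fam J T w))) ≤
      ((1 + a * D) * (1 + a * D) : ℕ) * #X := by
  unfold cnt
  rw [mul_comm, ← nsmul_eq_mul, ← Finset.sum_const]
  refine Finset.sum_le_sum fun v _ => ?_
  refine le_trans ?_ (Nat.cast_le.2 (card_conf J T D a hT hD v X))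
  rw [Finset.card_filter]
  push_cast
  refine Finset.sum_le_sum fun w _ => ?_
  by_cases h : ¬ Disjoint (hull v (fam J T v)) (hull w (fam J T w))
  · rw [if_pos h]; split_ifs <;> norm_num
  · rw [if_neg h, if_neg (fun h' => h h'.2)]

end H2BC
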