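import Mathlib
import Pool.Agent.H2BC.Alpha

set_option autoImplicit false

open Finset Classical

namespace H2BC

/-- The combinatorial conditions on a family of large bicliques inside `M`. -/
structure CondP {n t : ℕ} (M : Finset (Fin n)) (L η' : ℝ) (P Q : Fin t → Finset (Fin n)) : Prop where
  subP : ∀ i, P i ⊆ M
  subQ : ∀ i, Q i ⊆ M
  disj : ∀ i, Disjoint (P i) (Q i)
  big : ∀ i, 16 * L ≤ #(P i)
  le : ∀ i, #(P i) ≤ #(Q i)
  prof : ∀ i, η' * #M ≤ #(P i) * #(Q i)
  edisj : ∀ i j, i ≠ j → ∀ x ∈ P i, ∀ y ∈ Q i, ¬ (x ∈ P j ∧ y ∈ Q j) ∧ ¬ (y ∈ P j ∧ x ∈ Q j)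

lemma Pr_complete {n t : ℕ} {M : Finset (Fin n)} {L η' : ℝ} {P Q : Fin t → Finset (Fin n)}
    (h : CondP M L η' P Q) :
    Pr (fun ω : Sym2 (Fin n) → Bool => ∀ i, ∀ x ∈ P i, ∀ y ∈ Q i, ω s(x, y) = true) =
      (1 / 2) ^ (∑ i, #(P i) * #(Q i)) := by
  set S : Finset (Sym2 (Fin n)) :=
    (univ : Finset (Fin t)).biUnion fun i => (P i ×ˢ Q i).image fun p => s(p.1, p.2) with hS
  have h1 : #S = ∑ i, #(P i) * #(Q i) := by
    rw [hS, Finset.card_biUnion]
    · refine Finset.sum_congr rfl fun i _ => ?_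
      rw [← Finset.card_product]
      refine Finset.card_image_of_injOn ?_
      rintro ⟨x, y⟩ hxy ⟨x', y'⟩ hxy' heq
      simp only [Finset.coe_product, Set.mem_prod, Finset.mem_coe] at hxy hxy'
      simp only [Sym2.eq_iff] at heq
      rcases heq with ⟨rfl, rfl⟩ | ⟨rfl, rfl⟩
      · rfl
      · exact absurd hxy'.2 (Finset.disjoint_left.1 (h.disj i) hxy.1)
    · intro i _ j _ hij
      rw [Function.onFun, Finset.disjoint_left]
      intro s hs hs'
      simp only [Finset.mem_image, Finset.mem_product, Prod.exists] at hs hs'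
      obtain ⟨x, y, ⟨hx, hy⟩, rfl⟩ := hs
      obtain ⟨x', y', ⟨hx', hy'⟩, heq⟩ := hs'
      have := h.edisj i j hij x hx y hy
      rw [Sym2.eq_iff] at heq
      rcases heq with ⟨rfl, rfl⟩ | ⟨rfl, rfl⟩
      · exact this.1 ⟨hx', hy'⟩
      · exact this.2 ⟨hx', hy'⟩
  rw [← h1, ← Pr_cyl S true]
  refine Pr_congr fun ω => ?_
  constructor
  · intro hω s hs
    rw [hS, Finset.mem_biUnion] at hs
    obtain ⟨i, _, hs⟩ := hs
    simp only [Finset.mem_image, Finset.mem_product, Prod.exists] at hs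
    obtain ⟨x, y, ⟨hx, hy⟩, rfl⟩ := hs
    exact hω i x hx y hy
  · intro hω i x hx y hy
    refine hω _ ?_
    rw [hS, Finset.mem_biUnion]
    exact ⟨i, Finset.mem_univ _, Finset.mem_image.2 ⟨(x, y), Finset.mem_product.2 ⟨hx, hy⟩, rfl⟩⟩

/-- Profitable pairs. -/
noncomputable def profit {n : ℕ} (M : Finset (Fin n)) (L η' : ℝ) :
    Finset (Finset (Fin n) × Finset (Fin n)) :=
  (M.powerset ×ˢ M.powerset).filter
    (fun k => 16 * L ≤ #k.1 ∧ #k.1 ≤ #k.2 ∧ η' * #M ≤ (#k.1 : ℝ) * #k.2)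

lemma sum_profit {n : ℕ} (M : Finset (Fin n)) (L η' : ℝ)
    (h1 : Real.exp (-L) ≤ η' / 64) (h2 : 64 * L ^ 2 ≤ η' * #M) :
    ∑ k ∈ profit M L η', Real.exp (-((#k.1 : ℝ) * #k.2 / 4)) ≤ 1 := by
  have h3 : ∀ k ∈ profit M L η', Real.exp (-((#k.1 : ℝ) * #k.2 / 4)) ≤
      Real.exp (2 * L ^ 2 - η' * #M / 16) * (Real.exp (-L) ^ #k.1 * Real.exp (-L) ^ #k.2) := by
    intro k hk
    simp only [profit, Finset.mem_filter, Finset.mem_product, Finset.mem_powerset] at hk
    obtain ⟨_, ha, hb, hc⟩ := hk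
    rw [← Real.exp_nat_mul, ← Real.exp_nat_mul, ← Real.exp_add, ← Real.exp_add]
    apply Real.exp_le_exp.2
    have hb' : (#k.1 : ℝ) ≤ #k.2 := by exact_mod_cast hb
    have hk1 : (0 : ℝ) ≤ #k.1 := by positivity
    have e1 : L * #k.2 ≤ (#k.1 : ℝ) * #k.2 / 16 := by
      have := mul_le_mul_of_nonneg_right ha (show (0:ℝ) ≤ #k.2 by positivity)
      linarith
    have e2 : (#k.1 : ℝ) ^ 2 / 8 ≤ (#k.1 : ℝ) * #k.2 / 8 := by
      have := mul_le_mul_of_nonneg_left hb' hk1
      nlinarith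
    have e3 : L * #k.1 - 2 * L ^ 2 ≤ (#k.1 : ℝ) ^ 2 / 8 := by
      nlinarith [sq_nonneg ((#k.1 : ℝ) - 4 * L)]
    linarith
  have h4 : ∑ k ∈ profit M L η', Real.exp (-((#k.1 : ℝ) * #k.2 / 4)) ≤
      Real.exp (2 * L ^ 2 - η' * #M / 16) * ((Real.exp (-L) + 1) ^ #M * (Real.exp (-L) + 1) ^ #M) := by
    calc _ ≤ ∑ k ∈ profit M L η',
          Real.exp (2 * L ^ 2 - η' * #M / 16) * (Real.exp (-L) ^ #k.1 * Real.exp (-L) ^ #k.2) :=
          Finset.sum_le_sum h3
      _ ≤ ∑ k ∈ M.powerset ×ˢ M.powerset,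
          Real.exp (2 * L ^ 2 - η' * #M / 16) * (Real.exp (-L) ^ #k.1 * Real.exp (-L) ^ #k.2) :=
          Finset.sum_le_sum_of_subset_of_nonneg (Finset.filter_subset _ _) fun _ _ _ => by positivity
      _ = _ := by
          rw [← Finset.mul_sum, Finset.sum_product]
          simp only
          rw [← Finset.sum_mul_sum]
          have h5 : ∑ s ∈ M.powerset, Real.exp (-L) ^ #s = (Real.exp (-L) + 1) ^ #M := by
            rw [← Finset.sum_pow_mul_eq_add_pow]
            simp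
          rw [h5]
  refine h4.trans ?_
  have h5 : Real.exp (-L) + 1 ≤ Real.exp (Real.exp (-L)) := Real.add_one_le_exp _
  have h6 : (Real.exp (-L) + 1) ^ #M ≤ Real.exp (#M * Real.exp (-L)) := by
    rw [Real.exp_nat_mul]
    exact pow_le_pow_left₀ (by positivity) h5 _
  calc _ ≤ Real.exp (2 * L ^ 2 - η' * #M / 16) *
        (Real.exp (#M * Real.exp (-L)) * Real.exp (#M * Real.exp (-L))) := by gcongr
    _ = Real.exp (2 * L ^ 2 - η' * #M / 16 + (#M * Real.exp (-L) + #M * Real.exp (-L))) := by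
        rw [← Real.exp_add, ← Real.exp_add]
    _ ≤ Real.exp 0 := by
        apply Real.exp_le_exp.2
        have : (#M : ℝ) * Real.exp (-L) ≤ #M * (η' / 64) :=
          mul_le_mul_of_nonneg_left h1 (by positivity)
        nlinarith
    _ = 1 := Real.exp_zero

lemma Pr_badP (n m : ℕ) (L η η' : ℝ)
    (h1 : Real.exp (-L) ≤ η' / 64) (h2 : 64 * L ^ 2 ≤ η' * m) :
    Pr (fun ω : Sym2 (Fin n) → Bool => ∃ M : Finset (Fin n), #M = m ∧ ∃ t ≤ m,
      ∃ P Q : Fin t → Finset (Fin n), CondP M L η' P Q ∧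
      (∀ i, ∀ x ∈ P i, ∀ y ∈ Q i, ω s(x, y) = true) ∧
      η * (m : ℝ) ^ 2 < ∑ i, (#(P i) : ℝ) * #(Q i)) ≤
      ((n : ℝ) + 1) ^ m * ((m + 1) * Real.exp (-(η * (m : ℝ) ^ 2 / 4))) := by
  set MM : Finset (Finset (Fin n)) := (univ : Finset (Fin n)).powerset.filter (fun t => #t ≤ m) with hMM
  have h0 : Pr (fun ω : Sym2 (Fin n) → Bool => ∃ M : Finset (Fin n), #M = m ∧ ∃ t ≤ m,
      ∃ P Q : Fin t → Finset (Fin n), CondP M L η' P Q ∧
      (∀ i, ∀ x ∈ P i, ∀ y ∈ Q i, ω s(x, y) = true) ∧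
      η * (m : ℝ) ^ 2 < ∑ i, (#(P i) : ℝ) * #(Q i)) ≤
      Pr (fun ω : Sym2 (Fin n) → Bool => ∃ M ∈ MM, ∃ t ∈ Finset.range (m + 1),
        ∃ k ∈ Fintype.piFinset (fun _ : Fin t => profit M L η'), (#M = m ∧
          CondP M L η' (fun i => (k i).1) (fun i => (k i).2) ∧
          η * (m : ℝ) ^ 2 < ∑ i, (#(k i).1 : ℝ) * #(k i).2) ∧
          (∀ i, ∀ x ∈ (k i).1, ∀ y ∈ (k i).2, ω s(x, y) = true)) := by
    refine Pr_mono fun ω => ?_
    rintro ⟨M, hM, t, ht, P, Q, hc, hω, hs⟩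
    refine ⟨M, ?_, t, Finset.mem_range.2 (by omega), fun i => (P i, Q i), ?_, ⟨hM, hc, hs⟩, hω⟩
    · rw [hMM, Finset.mem_filter]
      exact ⟨by simp, hM.le⟩
    · rw [Fintype.mem_piFinset]
      intro i
      simp only [profit, Finset.mem_filter, Finset.mem_product, Finset.mem_powerset]
      exact ⟨⟨hc.subP i, hc.subQ i⟩, hc.big i, hc.le i, hc.prof i⟩
  refine h0.trans ((Pr_union _ _).trans ?_)
  have key : ∀ M ∈ MM, Pr (fun ω : Sym2 (Fin n) → Bool => ∃ t ∈ Finset.range (m + 1),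
        ∃ k ∈ Fintype.piFinset (fun _ : Fin t => profit M L η'), (#M = m ∧
          CondP M L η' (fun i => (k i).1) (fun i => (k i).2) ∧
          η * (m : ℝ) ^ 2 < ∑ i, (#(k i).1 : ℝ) * #(k i).2) ∧
          (∀ i, ∀ x ∈ (k i).1, ∀ y ∈ (k i).2, ω s(x, y) = true)) ≤
        (m + 1) * Real.exp (-(η * (m : ℝ) ^ 2 / 4)) := by
    intro M _
    refine (Pr_union _ _).trans ?_
    have key2 : ∀ t ∈ Finset.range (m + 1), Pr (fun ω : Sym2 (Fin n) → Bool =>
        ∃ k ∈ Fintype.piFinset (fun _ : Fin t => profit M L η'), (#M = m ∧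
          CondP M L η' (fun i => (k i).1) (fun i => (k i).2) ∧
          η * (m : ℝ) ^ 2 < ∑ i, (#(k i).1 : ℝ) * #(k i).2) ∧
          (∀ i, ∀ x ∈ (k i).1, ∀ y ∈ (k i).2, ω s(x, y) = true)) ≤
          Real.exp (-(η * (m : ℝ) ^ 2 / 4)) := by
      intro t _
      by_cases hMm : #M = m
      · refine (Pr_union _ _).trans ?_
        have key3 : ∀ k ∈ Fintype.piFinset (fun _ : Fin t => profit M L η'),
            Pr (fun ω : Sym2 (Fin n) → Bool => (#M = m ∧
              CondP M L η' (fun i => (k i).1) (fun i => (k i).2) ∧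
              η * (m : ℝ) ^ 2 < ∑ i, (#(k i).1 : ℝ) * #(k i).2) ∧
              (∀ i, ∀ x ∈ (k i).1, ∀ y ∈ (k i).2, ω s(x, y) = true)) ≤
            Real.exp (-(η * (m : ℝ) ^ 2 / 4)) *
              ∏ i, Real.exp (-((#(k i).1 : ℝ) * #(k i).2 / 4)) := by
          intro k _
          by_cases hk : #M = m ∧
              CondP M L η' (fun i => (k i).1) (fun i => (k i).2) ∧
              η * (m : ℝ) ^ 2 < ∑ i, (#(k i).1 : ℝ) * #(k i).2
          · refine le_trans (Pr_mono fun ω h => h.2) ?_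
            rw [Pr_complete hk.2.1, ← Real.exp_sum, ← Real.exp_add]
            have e1 : (1 : ℝ) / 2 ≤ Real.exp (-(1 / 2)) := by
              have := Real.add_one_le_exp (-(1 / 2) : ℝ)
              linarith
            refine (pow_le_pow_left₀ (by norm_num) e1 _).trans ?_
            rw [← Real.exp_nat_mul]
            apply Real.exp_le_exp.2
            push_cast
            have e2 : ∑ i, -((#(k i).1 : ℝ) * #(k i).2 / 4) =
                -((∑ i, (#(k i).1 : ℝ) * #(k i).2) / 4) := by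
              rw [Finset.sum_neg_distrib, Finset.sum_div]
            rw [e2]
            have e3 := hk.2.2
            linarith
          · have : Pr (fun ω : Sym2 (Fin n) → Bool => (#M = m ∧
              CondP M L η' (fun i => (k i).1) (fun i => (k i).2) ∧
              η * (m : ℝ) ^ 2 < ∑ i, (#(k i).1 : ℝ) * #(k i).2) ∧
              (∀ i, ∀ x ∈ (k i).1, ∀ y ∈ (k i).2, ω s(x, y) = true)) ≤
              Ex (fun _ : Sym2 (Fin n) → Bool => (0 : ℝ)) := by
              refine Ex_mono fun ω => ?_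
              rw [if_neg fun h => hk h.1]
            rw [Ex_const] at this
            exact this.trans (by positivity)
        refine (Finset.sum_le_sum key3).trans ?_
        rw [← Finset.mul_sum]
        have e1 := Finset.prod_univ_sum (fun _ : Fin t => profit M L η')
          (fun _ (k : Finset (Fin n) × Finset (Fin n)) => Real.exp (-((#k.1 : ℝ) * #k.2 / 4)))
        rw [← e1, Finset.prod_const, Finset.card_univ, Fintype.card_fin]
        have e2 := sum_profit M L η' h1 (by rw [hMm]; exact h2)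
        have e3 : (∑ k ∈ profit M L η', Real.exp (-((#k.1 : ℝ) * #k.2 / 4))) ^ t ≤ 1 :=
          pow_le_one₀ (Finset.sum_nonneg fun _ _ => (Real.exp_pos _).le) e2
        calc _ ≤ Real.exp (-(η * (m : ℝ) ^ 2 / 4)) * 1 :=
              mul_le_mul_of_nonneg_left e3 (Real.exp_pos _).le
          _ = _ := mul_one _
      · have : Pr (fun ω : Sym2 (Fin n) → Bool =>
          ∃ k ∈ Fintype.piFinset (fun _ : Fin t => profit M L η'), (#M = m ∧
          CondP M L η' (fun i => (k i).1) (fun i => (k i).2) ∧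
          η * (m : ℝ) ^ 2 < ∑ i, (#(k i).1 : ℝ) * #(k i).2) ∧
          (∀ i, ∀ x ∈ (k i).1, ∀ y ∈ (k i).2, ω s(x, y) = true)) ≤
          Ex (fun _ : Sym2 (Fin n) → Bool => (0 : ℝ)) := by
          refine Ex_mono fun ω => ?_
          rw [if_neg]
          rintro ⟨k, _, h, _⟩
          exact hMm h.1
        rw [Ex_const] at this
        exact this.trans (Real.exp_pos _).le
    refine (Finset.sum_le_sum key2).trans ?_
    rw [Finset.sum_const, Finset.card_range, nsmul_eq_mul]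
    push_cast
    exact le_rfl
  refine (Finset.sum_le_sum key).trans ?_
  rw [Finset.sum_const, nsmul_eq_mul]
  refine mul_le_mul_of_nonneg_right ?_ (by positivity)
  have := card_small (univ : Finset (Fin n)) m
  rw [Finset.card_univ, Fintype.card_fin] at this
  exact_mod_cast this

end H2BC
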