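import Mathlib
import Pool.Agent.H2BC.LemP
import Pool.Agent.H2BC.Det1

set_option autoImplicit false

open Finset Classical

namespace H2BC

/-- Biclique partition. -/
structure IsBP {V : Type} (G : SimpleGraph V) {r : ℕ} (A B : Fin r → Finset V) : Prop where
  neA : ∀ i, (A i).Nonempty
  neB : ∀ i, (B i).Nonempty
  complete : ∀ i, ∀ x ∈ A i, ∀ y ∈ B i, G.Adj x y
  cover : ∀ x y, G.Adj x y → ∃ i, (x ∈ A i ∧ y ∈ B i) ∨ (y ∈ A i ∧ x ∈ B i)
  unique : ∀ i j x y, x ∈ A i → y ∈ B i → ((x ∈ A j ∧ y ∈ B j) ∨ (y ∈ A j ∧ x ∈ B j)) → i = j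

def GoodU (n a D : ℕ) (K : ℝ) (ω : Sym2 (Fin n) → Bool) : Prop :=
  ∀ ρ : ℕ, K ≤ ρ → ∀ (e : Fin ρ → Fin n) (F : Fin ρ → Finset (Finset (Fin n))),
    (∀ i, F i ∈ fams n a D) → Cond e F →
    (1 / 2) ^ 67 * (ρ : ℝ) ^ 2 ≤ (#((prs ρ).filter (fun p => UU e F ω p)) : ℝ)

def GoodP (n : ℕ) (L η η' : ℝ) (K : ℝ) (ω : Sym2 (Fin n) → Bool) : Prop :=
  ∀ M : Finset (Fin n), K ≤ #M → ∀ t ≤ #M, ∀ P Q : Fin t → Finset (Fin n),
    CondP M L η' P Q → (∀ i, ∀ x ∈ P i, ∀ y ∈ Q i, ω s(x, y) = true) →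
    ∑ i, (#(P i) : ℝ) * #(Q i) ≤ η * (#M : ℝ) ^ 2

variable {n r : ℕ}

lemma cnt_le {V : Type} (S : Finset V) (P : V → V → Prop) (g : V → V → ℝ)
    (h0 : ∀ x y, 0 ≤ g x y) (h1 : ∀ x y, P x y → 1 ≤ g x y) :
    cnt S P ≤ ∑ x ∈ S, ∑ y ∈ S, g x y := by
  unfold cnt
  refine Finset.sum_le_sum fun x _ => Finset.sum_le_sum fun y _ => ?_
  split_ifs with h
  · exact h1 x y h.2
  · exact h0 x y

lemma cnt_drop_le (A B : Fin r → Finset (Fin n)) (M : Finset (Fin n)) (X : Finset (Fin r)) :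
    cnt M (fun x y => ∃ i ∈ X, (x ∈ A i ∧ y ∈ B i) ∨ (y ∈ A i ∧ x ∈ B i)) ≤
      2 * ∑ i ∈ X, (#(A i ∩ M) : ℝ) * #(B i ∩ M) := by
  refine (cnt_le M _ (fun x y => ∑ i ∈ X, ((if x ∈ A i then (1 : ℝ) else 0) *
    (if y ∈ B i then 1 else 0) + (if y ∈ A i then (1 : ℝ) else 0) * (if x ∈ B i then 1 else 0)))
    (fun x y => Finset.sum_nonneg fun i _ => by positivity) ?_).trans (le_of_eq ?_)
  · rintro x y ⟨i, hi, hh⟩
    refine le_trans ?_ (Finset.single_le_sum (f := fun i => ((if x ∈ A i then (1 : ℝ) else 0) *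
      (if y ∈ B i then 1 else 0) + (if y ∈ A i then (1 : ℝ) else 0) * (if x ∈ B i then 1 else 0)))
      (fun i _ => by positivity) hi)
    rcases hh with ⟨h1, h2⟩ | ⟨h1, h2⟩
    · simp only [h1, h2, if_true]
      have : (0 : ℝ) ≤ (if y ∈ A i then (1 : ℝ) else 0) * (if x ∈ B i then 1 else 0) := by positivity
      linarith
    · simp only [h1, h2, if_true]
      have : (0 : ℝ) ≤ (if x ∈ A i then (1 : ℝ) else 0) * (if y ∈ B i then 1 else 0) := by positivity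
      linarith
  have h2 : ∀ (C : Finset (Fin n)), ∑ x ∈ M, (if x ∈ C then (1 : ℝ) else 0) = #(C ∩ M) := by
    intro C
    rw [Finset.sum_boole]
    congr 2
    ext x
    simp [and_comm]
  have h3 : ∀ x, ∑ y ∈ M, ∑ i ∈ X, ((if x ∈ A i then (1 : ℝ) else 0) * (if y ∈ B i then 1 else 0) +
        (if y ∈ A i then (1 : ℝ) else 0) * (if x ∈ B i then 1 else 0)) =
      ∑ i ∈ X, ((if x ∈ A i then (1 : ℝ) else 0) * #(B i ∩ M) +
        #(A i ∩ M) * (if x ∈ B i then (1 : ℝ) else 0)) := by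
    intro x
    rw [Finset.sum_comm]
    refine Finset.sum_congr rfl fun i _ => ?_
    rw [Finset.sum_add_distrib, ← Finset.mul_sum, ← Finset.sum_mul, h2, h2]
  rw [Finset.sum_congr rfl fun x _ => h3 x, Finset.sum_comm, Finset.mul_sum]
  refine Finset.sum_congr rfl fun i _ => ?_
  rw [Finset.sum_add_distrib, ← Finset.mul_sum, ← Finset.sum_mul, h2, h2]
  ring

lemma exists_T (A : Fin r → Finset (Fin n)) (M : Finset (Fin n)) (I : Finset (Fin r)) (a : ℕ)
    (ha : 2 ≤ a) (hI2 : ∀ i ∈ I, 2 ≤ #(A i)) :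
    ∃ T : Fin r → Finset (Fin n), ∀ i ∈ I, #(A i ∩ M) < a →
      T i ⊆ A i ∧ A i ∩ M ⊆ T i ∧ 2 ≤ #(T i) ∧ #(T i) ≤ a := by
  have h : ∀ i : Fin r, ∃ T : Finset (Fin n), i ∈ I → #(A i ∩ M) < a →
      T ⊆ A i ∧ A i ∩ M ⊆ T ∧ 2 ≤ #T ∧ #T ≤ a := by
    intro i
    by_cases hi : i ∈ I
    · by_cases hlt : #(A i ∩ M) < a
      · obtain ⟨T, h1, h2, h3⟩ := Finset.exists_subsuperset_card_eq (s := A i ∩ M) (t := A i)
          (n := max 2 #(A i ∩ M)) Finset.inter_subset_left (le_max_right _ _)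
          (max_le (hI2 i hi) (Finset.card_le_card Finset.inter_subset_left))
        exact ⟨T, fun _ _ => ⟨h2, h1, by rw [h3]; exact le_max_left _ _,
          by rw [h3]; exact max_le ha hlt.le⟩⟩
      · exact ⟨∅, fun _ h => absurd h hlt⟩
    · exact ⟨∅, fun h => absurd h hi⟩
  choose T hT using h
  exact ⟨T, fun i hi hlt => hT i hi hlt⟩

/-- Edges covered by small types touching a hub. -/
lemma hub_cover {ω : Sym2 (Fin n) → Bool} {A B : Fin r → Finset (Fin n)} (hBP : IsBP (gr ω) A B)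
    (M : Finset (Fin n)) (Sm : Finset (Fin r)) (T : Fin r → Finset (Fin n)) (a D : ℕ)
    (hT1 : ∀ i ∈ Sm, T i ⊆ A i) (hT2 : ∀ i ∈ Sm, A i ∩ M ⊆ T i) (hT3 : ∀ i ∈ Sm, #(T i) ≤ a)
    (hSm : #Sm ≤ #M) :
    (∑ i ∈ Sm.filter (fun i => ¬ Disjoint (T i) (hubs Sm T D)), (#(A i ∩ M) : ℝ) * #(B i ∩ M)) * D ≤
      a ^ 2 * (#M : ℝ) ^ 2 := by
  set H := hubs Sm T D with hH
  have h1 : ∑ i ∈ Sm.filter (fun i => ¬ Disjoint (T i) H), (#(B i ∩ M) : ℝ) ≤
      ∑ x ∈ H, ∑ i ∈ Sm.filter (fun i => x ∈ T i), (#(B i ∩ M) : ℝ) := by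
    have e1 : ∑ x ∈ H, ∑ i ∈ Sm.filter (fun i => x ∈ T i), (#(B i ∩ M) : ℝ) =
        ∑ i ∈ Sm, ∑ x ∈ H, (if x ∈ T i then (#(B i ∩ M) : ℝ) else 0) := by
      simp only [Finset.sum_filter]
      rw [Finset.sum_comm]
    rw [e1, Finset.sum_filter]
    refine Finset.sum_le_sum fun i _ => ?_
    by_cases h : ¬ Disjoint (T i) H
    · rw [if_pos h]
      rw [Finset.not_disjoint_iff] at h
      obtain ⟨x, hx, hx'⟩ := h
      calc (#(B i ∩ M) : ℝ) = if x ∈ T i then (#(B i ∩ M) : ℝ) else 0 := by rw [if_pos hx]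
        _ ≤ _ := Finset.single_le_sum (f := fun x => if x ∈ T i then (#(B i ∩ M) : ℝ) else 0)
          (fun _ _ => by positivity) hx'
    · rw [if_neg h]
      exact Finset.sum_nonneg fun _ _ => by positivity
  have h2 : ∀ x ∈ H, ∑ i ∈ Sm.filter (fun i => x ∈ T i), (#(B i ∩ M) : ℝ) ≤ #M := by
    intro x _
    have e1 : #((Sm.filter (fun i => x ∈ T i)).biUnion fun i => B i ∩ M) =
        ∑ i ∈ Sm.filter (fun i => x ∈ T i), #(B i ∩ M) := by
      refine Finset.card_biUnion fun i hi j hj hij => ?_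
      rw [Function.onFun, Finset.disjoint_left]
      intro w hw hw'
      rw [Finset.mem_coe, Finset.mem_filter] at hi hj
      refine hij (hBP.unique i j x w (hT1 i hi.1 hi.2) (Finset.mem_inter.1 hw).1
        (Or.inl ⟨hT1 j hj.1 hj.2, (Finset.mem_inter.1 hw').1⟩))
    have e2 : ((Sm.filter (fun i => x ∈ T i)).biUnion fun i => B i ∩ M) ⊆ M := by
      intro w hw
      rw [Finset.mem_biUnion] at hw
      obtain ⟨i, _, hw⟩ := hw
      exact (Finset.mem_inter.1 hw).2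
    have e3 := Finset.card_le_card e2
    rw [e1] at e3
    exact_mod_cast e3
  have h3 : ∑ x ∈ H, ∑ i ∈ Sm.filter (fun i => x ∈ T i), (#(B i ∩ M) : ℝ) ≤ #H * #M := by
    refine (Finset.sum_le_sum h2).trans ?_
    rw [Finset.sum_const, nsmul_eq_mul]
  have h4 : ∑ i ∈ Sm.filter (fun i => ¬ Disjoint (T i) H), (#(A i ∩ M) : ℝ) * #(B i ∩ M) ≤
      a * ∑ i ∈ Sm.filter (fun i => ¬ Disjoint (T i) H), (#(B i ∩ M) : ℝ) := by
    rw [Finset.mul_sum]
    refine Finset.sum_le_sum fun i hi => ?_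
    have hi' := (Finset.mem_filter.1 hi).1
    have : (#(A i ∩ M) : ℝ) ≤ a := by
      exact_mod_cast (Finset.card_le_card (hT2 i hi')).trans (hT3 i hi')
    exact mul_le_mul_of_nonneg_right this (by positivity)
  have h5 : (#H : ℝ) * D ≤ a * #Sm := card_hubs Sm T D a hT3
  have h6 : (#Sm : ℝ) ≤ #M := by exact_mod_cast hSm
  have h7 : (#H : ℝ) * D ≤ a * #M := h5.trans (mul_le_mul_of_nonneg_left h6 (by positivity))
  calc _ ≤ (a * (#H * #M : ℝ)) * D := by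
        refine mul_le_mul_of_nonneg_right ?_ (by positivity)
        exact h4.trans (mul_le_mul_of_nonneg_left (h1.trans h3) (by positivity))
    _ = a * #M * (#H * D) := by ring
    _ ≤ a * #M * (a * #M) := mul_le_mul_of_nonneg_left h7 (by positivity)
    _ = _ := by ring

/-- Edges covered by large types. -/
lemma large_cover {ω : Sym2 (Fin n) → Bool} {A B : Fin r → Finset (Fin n)} (hBP : IsBP (gr ω) A B)
    (M : Finset (Fin n)) (I : Finset (Fin r)) (hIM : #I ≤ #M) (L η η' K : ℝ) (hη' : 0 ≤ η')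
    (hle : ∀ i, #(A i ∩ M) ≤ #(B i ∩ M)) (hP : GoodP n L η η' K ω) (hK : K ≤ #M) :
    ∑ i ∈ I.filter (fun i => 16 * L ≤ (#(A i ∩ M) : ℝ)), (#(A i ∩ M) : ℝ) * #(B i ∩ M) ≤
      (η + η') * (#M : ℝ) ^ 2 := by
  set X := I.filter (fun i => 16 * L ≤ (#(A i ∩ M) : ℝ)) with hX
  rw [← Finset.sum_filter_add_sum_filter_not X
    (fun i => η' * #M ≤ (#(A i ∩ M) : ℝ) * #(B i ∩ M))]
  rw [add_mul]
  refine add_le_add ?_ ?_
  · set X1 := X.filter (fun i => η' * #M ≤ (#(A i ∩ M) : ℝ) * #(B i ∩ M)) with hX1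
    have hX1I : X1 ⊆ I := (Finset.filter_subset _ _).trans (Finset.filter_subset _ _)
    have hc : #X1 ≤ #M := (Finset.card_le_card hX1I).trans hIM
    set e := X1.orderEmbOfFin rfl with he
    have hmem : ∀ k, e k ∈ X1 := fun k => Finset.orderEmbOfFin_mem X1 rfl k
    have h1 := hP M hK (#X1) hc (fun k => A (e k) ∩ M) (fun k => B (e k) ∩ M) ?_ ?_
    · have h2 : ∑ i ∈ X1, (#(A i ∩ M) : ℝ) * #(B i ∩ M) =
          ∑ k, (#(A (e k) ∩ M) : ℝ) * #(B (e k) ∩ M) := by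
        have h3 : (Finset.univ : Finset (Fin #X1)).map e.toEmbedding = X1 :=
          Finset.map_orderEmbOfFin_univ X1 rfl
        conv_lhs => rw [← h3]
        rw [Finset.sum_map]
        rfl
      rw [h2]
      exact h1
    · refine ⟨fun k => Finset.inter_subset_right, fun k => Finset.inter_subset_right, ?_, ?_,
        fun k => hle _, ?_, ?_⟩
      · intro k
        rw [Finset.disjoint_left]
        intro x hx hx'
        exact (hBP.complete _ x (Finset.mem_inter.1 hx).1 x (Finset.mem_inter.1 hx').1).ne rfl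
      · intro k
        exact (Finset.mem_filter.1 (Finset.mem_filter.1 (hmem k)).1).2
      · intro k
        exact (Finset.mem_filter.1 (hmem k)).2
      · intro k l hkl x hx y hy
        rw [Finset.mem_inter] at hx hy
        constructor
        · rintro ⟨hx', hy'⟩
          rw [Finset.mem_inter] at hx' hy'
          exact hkl (e.injective (hBP.unique _ _ x y hx.1 hy.1 (Or.inl ⟨hx'.1, hy'.1⟩)))
        · rintro ⟨hx', hy'⟩
          rw [Finset.mem_inter] at hx' hy'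
          exact hkl (e.injective (hBP.unique _ _ x y hx.1 hy.1 (Or.inr ⟨hx'.1, hy'.1⟩)))
    · intro k x hx y hy
      exact (hBP.complete _ x (Finset.mem_inter.1 hx).1 y (Finset.mem_inter.1 hy).1).2
  · set X2 := X.filter (fun i => ¬ η' * #M ≤ (#(A i ∩ M) : ℝ) * #(B i ∩ M)) with hX2
    have hX2I : X2 ⊆ I := (Finset.filter_subset _ _).trans (Finset.filter_subset _ _)
    have hc : (#X2 : ℝ) ≤ #M := by exact_mod_cast (Finset.card_le_card hX2I).trans hIM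
    calc ∑ i ∈ X2, (#(A i ∩ M) : ℝ) * #(B i ∩ M) ≤ ∑ i ∈ X2, η' * (#M : ℝ) :=
          Finset.sum_le_sum fun i hi => (not_le.1 (Finset.mem_filter.1 hi).2).le
      _ = #X2 * (η' * #M) := by rw [Finset.sum_const, nsmul_eq_mul]
      _ ≤ #M * (η' * #M) := mul_le_mul_of_nonneg_right hc (by positivity)
      _ = _ := by ring

end H2BC
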