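import Mathlib
import Pool.Agent.H2BC.Det2

set_option autoImplicit false

open Finset Classical

namespace H2BC

variable {n r : ℕ}

lemma card_le_cnt {V W : Type} (S : Finset V) (P : V → V → Prop) (X : Finset W) (f : W → V × V)
    (hf : Function.Injective f)
    (h : ∀ x ∈ X, (f x).1 ∈ S ∧ (f x).2 ∈ S ∧ (f x).1 ≠ (f x).2 ∧ P (f x).1 (f x).2) :
    (#X : ℝ) ≤ cnt S P := by
  have h1 : cnt S P = #((S ×ˢ S).filter (fun p => p.1 ≠ p.2 ∧ P p.1 p.2)) := by
    unfold cnt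
    rw [← Finset.sum_product', Finset.sum_boole]
  rw [h1, ← Finset.card_image_of_injective X hf]
  have h2 : X.image f ⊆ (S ×ˢ S).filter (fun p => p.1 ≠ p.2 ∧ P p.1 p.2) := by
    intro y hy
    obtain ⟨x, hx, rfl⟩ := Finset.mem_image.1 hy
    have := h x hx
    exact Finset.mem_filter.2 ⟨Finset.mem_product.2 ⟨this.1, this.2.1⟩, this.2.2⟩
  exact_mod_cast Finset.card_le_card h2

lemma core {ω : Sym2 (Fin n) → Bool} {A B : Fin r → Finset (Fin n)} (hBP : IsBP (gr ω) A B)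
    (M : Finset (Fin n)) (I : Finset (Fin r))
    (hI : ∀ i ∉ I, A i ∩ M = ∅ ∨ B i ∩ M = ∅) (hI2 : ∀ i ∈ I, 2 ≤ #(A i))
    (hle : ∀ i, #(A i ∩ M) ≤ #(B i ∩ M)) (hIM : #I ≤ #M) (hM : 0 < #M)
    (l a D : ℕ) (hl : 1 ≤ l) (ha : a = 16 * l) (hD : D = a ^ 2 * 2 ^ 85) (KP KU : ℝ)
    (hP : GoodP n l ((1 / 2) ^ 85) ((1 / 2) ^ 85) KP ω) (hKP : KP ≤ #M)
    (hU : GoodU n a D KU ω)
    (hKU : 112 * ((8 * ((1 + a * D) * (1 + a * D)) : ℕ) : ℝ) * KU ≤ #M) : False := by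
  obtain ⟨T, hT⟩ := exists_T A M I a (by omega) hI2
  set Sm : Finset (Fin r) := I.filter (fun i => #(A i ∩ M) < a) with hSm
  have hSmI : Sm ⊆ I := Finset.filter_subset _ _
  have hTS : ∀ i ∈ Sm, T i ⊆ A i ∧ A i ∩ M ⊆ T i ∧ 2 ≤ #(T i) ∧ #(T i) ≤ a := fun i hi =>
    hT i (Finset.mem_filter.1 hi).1 (Finset.mem_filter.1 hi).2
  have hSmM : #Sm ≤ #M := (Finset.card_le_card hSmI).trans hIM
  set H := hubs Sm T D with hH
  set J : Finset (Fin r) := Sm.filter (fun i => Disjoint (T i) H) with hJ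
  have hJS : J ⊆ Sm := Finset.filter_subset _ _
  have hDJ : ∀ x, #(J.filter (fun i => x ∈ T i)) ≤ D := by
    intro x
    by_cases hx : x ∈ H
    · have : J.filter (fun i => x ∈ T i) = ∅ := by
        rw [Finset.filter_eq_empty_iff]
        intro i hi hxi
        exact Finset.disjoint_left.1 (Finset.mem_filter.1 hi).2 hxi hx
      rw [this]; simp
    · have h1 : ¬ D < #(Sm.filter (fun i => x ∈ T i)) := by
        intro h
        exact hx (Finset.mem_filter.2 ⟨Finset.mem_univ _, h⟩)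
      exact (Finset.card_le_card (Finset.filter_subset_filter _ hJS)).trans (not_lt.1 h1)
  set Ms := goodv M J T with hMs
  have hMsM : Ms ⊆ M := Finset.filter_subset _ _
  have h14 : (#M : ℝ) ≤ 14 * #Ms :=
    card_goodv M J T ((Finset.card_le_card (hJS.trans hSmI)).trans hIM)
  have hMpos : (0 : ℝ) < #M := by exact_mod_cast hM
  have hMsne : Ms.Nonempty := by
    rw [← Finset.card_pos]
    have : (0 : ℝ) < #Ms := by linarith
    exact_mod_cast this
  set q : ℕ := 8 * ((1 + a * D) * (1 + a * D)) with hq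
  have hq0 : 0 < q := by positivity
  set conf : Fin n → Fin n → Prop :=
    fun v w => ¬ Disjoint (hull v (fam J T v)) (hull w (fam J T w)) with hconf
  set drop : Fin n → Fin n → Prop :=
    fun x y => ∃ i ∈ I \ J, (x ∈ A i ∧ y ∈ B i) ∨ (y ∈ A i ∧ x ∈ B i) with hdrop
  have hcC : cnt Ms conf ≤ ((1 + a * D) * (1 + a * D) : ℕ) * #Ms :=
    cnt_conf J T D a (fun i hi => (hTS i (hJS hi)).2.2.2) hDJ Ms
  have hcD : cnt Ms drop ≤ (1 / 2) ^ 74 * (#Ms : ℝ) ^ 2 := by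
    have h1 : cnt Ms drop ≤ cnt M drop := cnt_mono hMsM _
    have h2 : cnt M drop ≤ 2 * ∑ i ∈ I \ J, (#(A i ∩ M) : ℝ) * #(B i ∩ M) := cnt_drop_le A B M (I \ J)
    have h3 : ∑ i ∈ I \ J, (#(A i ∩ M) : ℝ) * #(B i ∩ M) ≤
        ∑ i ∈ Sm.filter (fun i => ¬ Disjoint (T i) H), (#(A i ∩ M) : ℝ) * #(B i ∩ M) +
        ∑ i ∈ I.filter (fun i => 16 * (l : ℝ) ≤ (#(A i ∩ M) : ℝ)), (#(A i ∩ M) : ℝ) * #(B i ∩ M) := by
      have hsub : I \ J ⊆ Sm.filter (fun i => ¬ Disjoint (T i) H) ∪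
          I.filter (fun i => 16 * (l : ℝ) ≤ (#(A i ∩ M) : ℝ)) := by
        intro i hi
        rw [Finset.mem_sdiff] at hi
        rw [Finset.mem_union]
        by_cases hlt : #(A i ∩ M) < a
        · left
          have hiS : i ∈ Sm := Finset.mem_filter.2 ⟨hi.1, hlt⟩
          refine Finset.mem_filter.2 ⟨hiS, fun hd => hi.2 (Finset.mem_filter.2 ⟨hiS, hd⟩)⟩
        · right
          refine Finset.mem_filter.2 ⟨hi.1, ?_⟩
          have : 16 * l ≤ #(A i ∩ M) := by omega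
          exact_mod_cast this
      refine (Finset.sum_le_sum_of_subset_of_nonneg hsub fun _ _ _ => by positivity).trans ?_
      rw [← Finset.sum_union_inter]
      have : (0 : ℝ) ≤ ∑ i ∈ Sm.filter (fun i => ¬ Disjoint (T i) H) ∩
          I.filter (fun i => 16 * (l : ℝ) ≤ (#(A i ∩ M) : ℝ)), (#(A i ∩ M) : ℝ) * #(B i ∩ M) :=
        Finset.sum_nonneg fun _ _ => by positivity
      linarith
    have h4 := hub_cover hBP M Sm T a D (fun i hi => (hTS i hi).1) (fun i hi => (hTS i hi).2.1)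
      (fun i hi => (hTS i hi).2.2.2) hSmM
    have h5 := large_cover hBP M I hIM l ((1 / 2) ^ 85) ((1 / 2) ^ 85) KP (by positivity) hle hP hKP
    have ha0 : (0 : ℝ) < a := by
      have : 0 < a := by omega
      exact_mod_cast this
    have hDr : (D : ℝ) = a ^ 2 * 2 ^ 85 := by rw [hD]; push_cast; ring
    have h6 : ∑ i ∈ Sm.filter (fun i => ¬ Disjoint (T i) H), (#(A i ∩ M) : ℝ) * #(B i ∩ M) ≤
        (1 / 2) ^ 85 * (#M : ℝ) ^ 2 := by
      rw [← hH, hDr] at h4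
      have h7 : (∑ i ∈ Sm.filter (fun i => ¬ Disjoint (T i) H), (#(A i ∩ M) : ℝ) * #(B i ∩ M)) * 2 ^ 85 ≤
          (#M : ℝ) ^ 2 := by
        have h8 : (a : ℝ) ^ 2 * ((∑ i ∈ Sm.filter (fun i => ¬ Disjoint (T i) H),
            (#(A i ∩ M) : ℝ) * #(B i ∩ M)) * 2 ^ 85) ≤ a ^ 2 * (#M : ℝ) ^ 2 := by linarith
        exact le_of_mul_le_mul_left h8 (by positivity)
      have h9 : ((1 : ℝ) / 2) ^ 85 * 2 ^ 85 = 1 := by
        rw [← mul_pow]; norm_num
      calc _ = ((1 : ℝ) / 2) ^ 85 * ((∑ i ∈ Sm.filter (fun i => ¬ Disjoint (T i) H),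
            (#(A i ∩ M) : ℝ) * #(B i ∩ M)) * 2 ^ 85) := by
            rw [mul_comm (∑ i ∈ _, _) _, ← mul_assoc, h9, one_mul]
        _ ≤ _ := mul_le_mul_of_nonneg_left h7 (by positivity)
    have h10 : cnt Ms drop ≤ 6 * (1 / 2) ^ 85 * (#M : ℝ) ^ 2 := by linarith
    have h11 : (#M : ℝ) ^ 2 ≤ (14 * #Ms) ^ 2 := pow_le_pow_left₀ hMpos.le h14 2
    calc cnt Ms drop ≤ 6 * (1 / 2) ^ 85 * (#M : ℝ) ^ 2 := h10
      _ ≤ 6 * (1 / 2) ^ 85 * (14 * #Ms) ^ 2 := mul_le_mul_of_nonneg_left h11 (by positivity)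
      _ = (6 * 196 / 2048) * ((1 / 2) ^ 74 * (#Ms : ℝ) ^ 2) := by ring
      _ ≤ 1 * ((1 / 2) ^ 74 * (#Ms : ℝ) ^ 2) :=
          mul_le_mul_of_nonneg_right (by norm_num) (by positivity)
      _ = _ := one_mul _
  obtain ⟨R, hRMs, hRc, hRconf, hRdrop⟩ := exists_R Ms hMsne conf drop q
    (((1 + a * D) * (1 + a * D) : ℕ) : ℝ) ((1 / 2) ^ 70) ((1 / 2) ^ 74) hq0 hcC hcD
    (by rw [hq]; push_cast; linarith) (by positivity) (by norm_num)
  have hRpos : (0 : ℝ) < #R := by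
    by_contra hneg
    push Not at hneg
    have h0 : (#R : ℝ) = 0 := le_antisymm hneg (by positivity)
    rw [h0, mul_zero] at hRc
    have : (0 : ℝ) < #Ms := by exact_mod_cast Finset.card_pos.2 hMsne
    linarith
  have hKR : KU ≤ #R := by
    have hq0' : (0 : ℝ) < q := by exact_mod_cast hq0
    have h1 : 112 * (q : ℝ) * KU ≤ 112 * q * #R := by
      calc 112 * (q : ℝ) * KU ≤ #M := hKU
        _ ≤ 14 * #Ms := h14
        _ ≤ 14 * (8 * q * #R) := by linarith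
        _ = _ := by ring
    exact le_of_mul_le_mul_left h1 (by positivity)
  set e := R.orderEmbOfFin rfl with he
  have hmem : ∀ k, e k ∈ R := fun k => Finset.orderEmbOfFin_mem R rfl k
  have hmemMs : ∀ k, e k ∈ Ms := fun k => hRMs (hmem k)
  have hmemM : ∀ k, e k ∈ M := fun k => hMsM (hmemMs k)
  have hcond : Cond (fun k => e k) (fun k => fam J T (e k)) := by
    refine ⟨?_, ?_, ?_, ?_, ?_⟩
    · intro i j hij
      have := hRconf (e i) (hmem i) (e j) (hmem j) (fun h => hij (e.injective h))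
      rw [hconf] at this
      exact not_not.1 this
    · intro i Y hY
      obtain ⟨j, _, _, rfl⟩ := mem_fam.1 hY
      exact Finset.notMem_erase _ _
    · intro i Y hY
      obtain ⟨j, hj, hv, rfl⟩ := mem_fam.1 hY
      rw [← Finset.card_pos, Finset.card_erase_of_mem hv]
      have := (hTS j (hJS hj)).2.2.1
      omega
    · intro i
      exact (Finset.mem_filter.1 (hmemMs i)).2.1
    · intro i
      exact (Finset.mem_filter.1 (hmemMs i)).2.2
  have hfams : ∀ k, fam J T (e k) ∈ fams n a D := by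
    intro k
    rw [mem_fams]
    refine ⟨fun Y hY => ?_, card_fam J T D hDJ _⟩
    obtain ⟨j, hj, hv, rfl⟩ := mem_fam.1 hY
    exact (Finset.card_le_card (Finset.erase_subset _ _)).trans (hTS j (hJS hj)).2.2.2
  have hmain := hU #R hKR (fun k => e k) (fun k => fam J T (e k)) hfams hcond
  have hupper : (#((prs #R).filter (fun p => UU (fun k => e k) (fun k => fam J T (e k)) ω p)) : ℝ) ≤
      cnt R drop := by
    refine card_le_cnt R drop _ (fun p => (e p.1, e p.2)) ?_ ?_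
    · rintro ⟨a1, b1⟩ ⟨a2, b2⟩ h
      simp only [Prod.mk.injEq] at h
      exact Prod.ext (e.injective h.1) (e.injective h.2)
    · intro p hp
      rw [Finset.mem_filter] at hp
      obtain ⟨hp1, hp2⟩ := hp
      have hlt : p.1 < p.2 := (Finset.mem_filter.1 hp1).2
      have hne : e p.1 ≠ e p.2 := fun h => (ne_of_lt hlt) (e.injective h)
      refine ⟨hmem _, hmem _, hne, ?_⟩
      have hadj : (gr ω).Adj (e p.1) (e p.2) := ⟨hne, hp2.1⟩
      obtain ⟨i, hi⟩ := hBP.cover _ _ hadj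
      have hiI : i ∈ I := by
        by_contra hcon
        rcases hI i hcon with h | h
        · rcases hi with ⟨h1, h2⟩ | ⟨h1, h2⟩
          · have : e p.1 ∈ A i ∩ M := Finset.mem_inter.2 ⟨h1, hmemM _⟩
            rw [h] at this; simp at this
          · have : e p.2 ∈ A i ∩ M := Finset.mem_inter.2 ⟨h1, hmemM _⟩
            rw [h] at this; simp at this
        · rcases hi with ⟨h1, h2⟩ | ⟨h1, h2⟩
          · have : e p.2 ∈ B i ∩ M := Finset.mem_inter.2 ⟨h2, hmemM _⟩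
            rw [h] at this; simp at this
          · have : e p.1 ∈ B i ∩ M := Finset.mem_inter.2 ⟨h2, hmemM _⟩
            rw [h] at this; simp at this
      refine ⟨i, Finset.mem_sdiff.2 ⟨hiI, fun hiJ => ?_⟩, hi⟩
      have hTi := hTS i (hJS hiJ)
      rcases hi with ⟨h1, h2⟩ | ⟨h1, h2⟩
      · have hv : e p.1 ∈ T i := hTi.2.1 (Finset.mem_inter.2 ⟨h1, hmemM _⟩)
        obtain ⟨y, hy, hy'⟩ := hp2.2.1 _ (mem_fam.2 ⟨i, hiJ, hv, rfl⟩)
        have hyA : y ∈ A i := hTi.1 (Finset.mem_of_mem_erase hy)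
        have := (hBP.complete i y hyA _ h2).symm.2
        rw [this] at hy'
        exact absurd hy' (by simp)
      · have hv : e p.2 ∈ T i := hTi.2.1 (Finset.mem_inter.2 ⟨h1, hmemM _⟩)
        obtain ⟨y, hy, hy'⟩ := hp2.2.2 _ (mem_fam.2 ⟨i, hiJ, hv, rfl⟩)
        have hyA : y ∈ A i := hTi.1 (Finset.mem_of_mem_erase hy)
        have := (hBP.complete i y hyA _ h2).symm.2
        rw [this] at hy'
        exact absurd hy' (by simp)
  have hR2 : (0 : ℝ) < (#R : ℝ) ^ 2 := by positivity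
  have hfin : ((1 : ℝ) / 2) ^ 67 * (#R : ℝ) ^ 2 ≤ 4 * (1 / 2) ^ 70 * (#R : ℝ) ^ 2 :=
    hmain.trans (hupper.trans hRdrop)
  have h1 : (4 : ℝ) * (1 / 2) ^ 70 * (#R : ℝ) ^ 2 = (1 / 2) * ((1 / 2) ^ 67 * (#R : ℝ) ^ 2) := by ring
  rw [h1] at hfin
  have h2 : (0 : ℝ) < (1 / 2) ^ 67 * (#R : ℝ) ^ 2 := by positivity
  linarith

end H2BC
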