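import Mathlib
import Pool.Agent.H2BC.Det3

set_option autoImplicit false

open Finset Classical

namespace H2BC

lemma IsBP.swap {V : Type} {G : SimpleGraph V} {r : ℕ} {A B : Fin r → Finset V} (h : IsBP G A B)
    (c : Fin r → Prop) :
    IsBP G (fun i => if c i then A i else B i) (fun i => if c i then B i else A i) := by
  refine ⟨?_, ?_, ?_, ?_, ?_⟩
  · intro i
    by_cases hi : c i
    · simpa [hi] using h.neA i
    · simpa [hi] using h.neB i
  · intro i
    by_cases hi : c i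
    · simpa [hi] using h.neB i
    · simpa [hi] using h.neA i
  · intro i x hx y hy
    by_cases hi : c i
    · simp only [hi, if_true] at hx hy
      exact h.complete i x hx y hy
    · simp only [hi, if_false] at hx hy
      exact (h.complete i y hy x hx).symm
  · intro x y hxy
    obtain ⟨i, hi⟩ := h.cover x y hxy
    refine ⟨i, ?_⟩
    by_cases hci : c i
    · simpa only [hci, if_true] using hi
    · simp only [hci, if_false]
      tauto
  · intro i j x y hx hy hj
    by_cases hi : c i <;> by_cases hj' : c j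
    · simp only [hi, hj', if_true] at hx hy hj
      exact h.unique i j x y hx hy hj
    · simp only [hi, hj', if_true, if_false] at hx hy hj
      exact h.unique i j x y hx hy (by tauto)
    · simp only [hi, hj', if_true, if_false] at hx hy hj
      exact h.unique i j y x hy hx (by tauto)
    · simp only [hi, hj', if_false] at hx hy hj
      exact h.unique i j y x hy hx (by tauto)

variable {n r : ℕ}

lemma lower {ω : Sym2 (Fin n) → Bool} {A B : Fin r → Finset (Fin n)} (hBP : IsBP (gr ω) A B)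
    (l a D : ℕ) (hl : 1 ≤ l) (ha : a = 16 * l) (hD : D = a ^ 2 * 2 ^ 85) (KP KU K : ℝ)
    (hP : GoodP n l ((1 / 2) ^ 85) ((1 / 2) ^ 85) KP ω) (hKP : KP ≤ K)
    (hU : GoodU n a D KU ω)
    (hKU : 112 * ((8 * ((1 + a * D) * (1 + a * D)) : ℕ) : ℝ) * KU ≤ K) (hK : 0 ≤ K) :
    (n : ℝ) ≤ r + K := by
  by_contra hcon
  push Not at hcon
  set St : Finset (Fin r) := Finset.univ.filter (fun i => #(A i) = 1 ∨ #(B i) = 1) with hSt
  set S : Finset (Fin n) := St.biUnion fun i => if #(A i) = 1 then A i else B i with hS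
  have hScard : #S ≤ #St := by
    have := Finset.card_biUnion_le_card_mul St (fun i => if #(A i) = 1 then A i else B i) 1 ?_
    · simpa using this
    · intro i hi
      rw [hSt, Finset.mem_filter] at hi
      by_cases h : #(A i) = 1
      · simp only [h, if_true]; exact le_refl _
      · simp only [h, if_false]
        exact (hi.2.resolve_left h).le
  set I : Finset (Fin r) := Finset.univ \ St with hI
  set M : Finset (Fin n) := Finset.univ \ S with hM
  have hIcard : #I + #St = r := by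
    have := Finset.card_sdiff_add_card_eq_card (Finset.subset_univ St)
    simpa using this
  have hMcard : #M + #S = n := by
    have := Finset.card_sdiff_add_card_eq_card (Finset.subset_univ S)
    simpa using this
  have hIr : (#I : ℝ) + #St = r := by exact_mod_cast hIcard
  have hMr : (#M : ℝ) + #S = n := by exact_mod_cast hMcard
  have hSr : (#S : ℝ) ≤ #St := by exact_mod_cast hScard
  have hbig : (#I : ℝ) + K < #M := by linarith
  have hInn : (0 : ℝ) ≤ #I := by positivity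
  have hIM : #I ≤ #M := by
    have : (#I : ℝ) ≤ #M := by linarith
    exact_mod_cast this
  have hMpos : 0 < #M := by
    have : (0 : ℝ) < #M := by linarith
    exact_mod_cast this
  have hempty : ∀ i ∉ I, A i ∩ M = ∅ ∨ B i ∩ M = ∅ := by
    intro i hi
    have hiS : i ∈ St := by
      by_contra h
      exact hi (Finset.mem_sdiff.2 ⟨Finset.mem_univ _, h⟩)
    have hor := (Finset.mem_filter.1 hiS).2
    by_cases h : #(A i) = 1
    · left
      rw [← Finset.disjoint_iff_inter_eq_empty, Finset.disjoint_left]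
      intro x hx hxM
      refine (Finset.mem_sdiff.1 hxM).2 (Finset.mem_biUnion.2 ⟨i, hiS, ?_⟩)
      simpa only [h, if_true] using hx
    · right
      rw [← Finset.disjoint_iff_inter_eq_empty, Finset.disjoint_left]
      intro x hx hxM
      refine (Finset.mem_sdiff.1 hxM).2 (Finset.mem_biUnion.2 ⟨i, hiS, ?_⟩)
      simpa only [h, if_false] using hx
  have hI2 : ∀ i ∈ I, 2 ≤ #(A i) ∧ 2 ≤ #(B i) := by
    intro i hi
    have hiS : ¬ (#(A i) = 1 ∨ #(B i) = 1) := by
      intro h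
      exact (Finset.mem_sdiff.1 hi).2 (Finset.mem_filter.2 ⟨Finset.mem_univ _, h⟩)
    push Not at hiS
    have h1 := (hBP.neA i).card_pos
    have h2 := (hBP.neB i).card_pos
    omega
  have hswap := hBP.swap (fun i => #(A i ∩ M) ≤ #(B i ∩ M))
  refine core hswap M I ?_ ?_ ?_ hIM hMpos l a D hl ha hD KP KU hP (by linarith) hU (by linarith)
  · intro i hi
    by_cases h : #(A i ∩ M) ≤ #(B i ∩ M)
    · simp only [h, if_true]; exact hempty i hi
    · simp only [h, if_false]; exact (hempty i hi).symm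
  · intro i hi
    by_cases h : #(A i ∩ M) ≤ #(B i ∩ M)
    · simp only [h, if_true]; exact (hI2 i hi).1
    · simp only [h, if_false]; exact (hI2 i hi).2
  · intro i
    by_cases h : #(A i ∩ M) ≤ #(B i ∩ M)
    · simp only [h, if_true]
    · simp only [h, if_false]; exact (not_le.1 h).le

/-! ### Probability of the good events -/

lemma Pr_not_GoodU (n a D : ℕ) (hn : 1 ≤ n) :
    Pr (fun ω : Sym2 (Fin n) → Bool =>
      ¬ GoodU n a D (2 ^ 67 * ((1 + (a + 1) * D : ℕ) + 2) * Real.log (n + 1)) ω) ≤ 1 / (n + 1) := by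
  set c : ℕ := 1 + (a + 1) * D with hc
  set K : ℝ := 2 ^ 67 * ((c : ℝ) + 2) * Real.log (n + 1) with hK
  have hn1 : (1 : ℝ) ≤ n := by exact_mod_cast hn
  have hlog : (1 : ℝ) / 2 ≤ Real.log (n + 1) := by
    have h1 : Real.log 2 ≤ Real.log (n + 1) := Real.log_le_log (by norm_num) (by linarith)
    have h2 := Real.log_two_gt_d9
    linarith
  have hK2 : (2 : ℝ) ≤ K := by
    have hc0 : (0 : ℝ) ≤ c := by positivity
    have : (2 : ℝ) ^ 67 * ((c : ℝ) + 2) * (1 / 2) ≤ K := by
      rw [hK]; exact mul_le_mul_of_nonneg_left hlog (by positivity)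
    have h3 : (2 : ℝ) ^ 67 * 2 * (1 / 2) ≤ (2 : ℝ) ^ 67 * ((c : ℝ) + 2) * (1 / 2) := by
      have : (2 : ℝ) ^ 67 * 2 ≤ (2 : ℝ) ^ 67 * ((c : ℝ) + 2) :=
        mul_le_mul_of_nonneg_left (by linarith) (by positivity)
      linarith
    norm_num at h3 this ⊢
    linarith
  have h1 : Pr (fun ω : Sym2 (Fin n) → Bool => ¬ GoodU n a D K ω) ≤
      Pr (fun ω : Sym2 (Fin n) → Bool => ∃ ρ ∈ (Finset.range (n + 1)).filter (fun ρ : ℕ => K ≤ ρ),
        ∃ e : Fin ρ → Fin n, ∃ F : Fin ρ → Finset (Finset (Fin n)),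
      (∀ i, F i ∈ fams n a D) ∧ Cond e F ∧
      (#((prs ρ).filter (fun p => UU e F ω p)) : ℝ) < (1 / 2) ^ 67 * (ρ : ℝ) ^ 2) := by
    refine Pr_mono fun ω hω => ?_
    unfold GoodU at hω
    push Not at hω
    obtain ⟨ρ, hρ, e, F, hF, hcond, hlt⟩ := hω
    refine ⟨ρ, Finset.mem_filter.2 ⟨?_, hρ⟩, e, F, hF, hcond, hlt⟩
    have hinj : Function.Injective e := by
      intro i j hij
      by_contra hne
      exact Finset.disjoint_left.1 (hcond.disj i j hne) (self_mem_hull _ _)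
        (hij ▸ self_mem_hull _ _)
    have := Fintype.card_le_of_injective e hinj
    simp only [Fintype.card_fin] at this
    exact Finset.mem_range.2 (by omega)
  refine h1.trans ((Pr_union _ _).trans ?_)
  have h2 : ∀ ρ ∈ (Finset.range (n + 1)).filter (fun ρ : ℕ => K ≤ ρ),
      Pr (fun ω : Sym2 (Fin n) → Bool =>
        ∃ e : Fin ρ → Fin n, ∃ F : Fin ρ → Finset (Finset (Fin n)),
      (∀ i, F i ∈ fams n a D) ∧ Cond e F ∧
      (#((prs ρ).filter (fun p => UU e F ω p)) : ℝ) < (1 / 2) ^ 67 * (ρ : ℝ) ^ 2) ≤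
      1 / ((n : ℝ) + 1) ^ 2 := by
    intro ρ hρ
    have hρK := (Finset.mem_filter.1 hρ).2
    have hρ2 : (2 : ℝ) ≤ ρ := hK2.trans hρK
    have hρ2' : 2 ≤ ρ := by exact_mod_cast hρ2
    refine (Pr_badU n ρ a D hn hρ2').trans ?_
    rw [← hc, ← pow_mul]
    have e1 : ((n : ℝ) + 1) ^ (c * ρ) = Real.exp ((c * ρ : ℕ) * Real.log (n + 1)) := by
      rw [Real.exp_nat_mul, Real.exp_log (by positivity)]
    have e2 : 1 / ((n : ℝ) + 1) ^ 2 = Real.exp (-((2 : ℕ) * Real.log (n + 1))) := by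
      rw [Real.exp_neg, Real.exp_nat_mul, Real.exp_log (by positivity), one_div]
    rw [e1, e2, ← Real.exp_add]
    apply Real.exp_le_exp.2
    push_cast
    have e3 : (1 / 2 : ℝ) ^ 67 * K = ((c : ℝ) + 2) * Real.log (n + 1) := by
      rw [hK, ← mul_assoc, ← mul_assoc, ← mul_pow]; norm_num
    have e4 : (1 / 2 : ℝ) ^ 67 * K * ρ ≤ (1 / 2 : ℝ) ^ 67 * (ρ : ℝ) ^ 2 := by
      rw [sq, mul_assoc]
      exact mul_le_mul_of_nonneg_left (mul_le_mul_of_nonneg_right hρK (by positivity)) (by positivity)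
    rw [e3] at e4
    have e5 : (2 : ℝ) * Real.log (n + 1) ≤ 2 * Real.log (n + 1) * ρ := by
      have : (0 : ℝ) ≤ 2 * Real.log (n + 1) := by linarith
      nlinarith
    nlinarith
  refine (Finset.sum_le_sum h2).trans ?_
  rw [Finset.sum_const, nsmul_eq_mul]
  have h3 : (#((Finset.range (n + 1)).filter (fun ρ : ℕ => K ≤ ρ)) : ℝ) ≤ n + 1 := by
    have := Finset.card_filter_le (Finset.range (n + 1)) (fun ρ : ℕ => K ≤ ρ)
    rw [Finset.card_range] at this
    exact_mod_cast this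
  calc _ ≤ ((n : ℝ) + 1) * (1 / ((n : ℝ) + 1) ^ 2) := mul_le_mul_of_nonneg_right h3 (by positivity)
    _ = _ := by field_simp

lemma Pr_not_GoodP (n l : ℕ) (hn : 1 ≤ n) (hl : Real.exp (-(l : ℝ)) ≤ (1 / 2) ^ 85 / 64) (hl1 : 1 ≤ l) :
    Pr (fun ω : Sym2 (Fin n) → Bool =>
      ¬ GoodP n l ((1 / 2) ^ 85) ((1 / 2) ^ 85) (2 ^ 85 * (128 * (l : ℝ) ^ 2) * Real.log (n + 1)) ω) ≤
      1 / (n + 1) := by
  set K : ℝ := 2 ^ 85 * (128 * (l : ℝ) ^ 2) * Real.log (n + 1) with hK
  have hn1 : (1 : ℝ) ≤ n := by exact_mod_cast hn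
  have hl1' : (1 : ℝ) ≤ l := by exact_mod_cast hl1
  have hlog : (1 : ℝ) / 2 ≤ Real.log (n + 1) := by
    have h1 : Real.log 2 ≤ Real.log (n + 1) := Real.log_le_log (by norm_num) (by linarith)
    have h2 := Real.log_two_gt_d9
    linarith
  have hpow : ((1 : ℝ) / 2) ^ 85 * 2 ^ 85 = 1 := by rw [← mul_pow]; norm_num
  have hK1 : 2 ^ 85 * (64 * (l : ℝ) ^ 2) ≤ K := by
    have : (2 : ℝ) ^ 85 * (128 * (l : ℝ) ^ 2) * (1 / 2) ≤ K := by
      rw [hK]; exact mul_le_mul_of_nonneg_left hlog (by positivity)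
    linarith
  have hK2 : 2 ^ 85 * 128 * Real.log (n + 1) ≤ K := by
    rw [hK]
    have h3 : (0 : ℝ) ≤ Real.log (n + 1) := by linarith
    have h4 : (1 : ℝ) ≤ (l : ℝ) ^ 2 := one_le_pow₀ hl1'
    have h5 : (2 : ℝ) ^ 85 * 128 ≤ 2 ^ 85 * (128 * (l : ℝ) ^ 2) :=
      mul_le_mul_of_nonneg_left (by linarith) (by positivity)
    exact mul_le_mul_of_nonneg_right h5 h3
  have h1 : Pr (fun ω : Sym2 (Fin n) → Bool => ¬ GoodP n l ((1 / 2) ^ 85) ((1 / 2) ^ 85) K ω) ≤
      Pr (fun ω : Sym2 (Fin n) → Bool => ∃ m ∈ (Finset.range (n + 1)).filter (fun m : ℕ => K ≤ m),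
        ∃ M : Finset (Fin n), #M = m ∧ ∃ t ≤ m,
      ∃ P Q : Fin t → Finset (Fin n), CondP M l ((1 / 2) ^ 85) P Q ∧
      (∀ i, ∀ x ∈ P i, ∀ y ∈ Q i, ω s(x, y) = true) ∧
      ((1 / 2) ^ 85) * (m : ℝ) ^ 2 < ∑ i, (#(P i) : ℝ) * #(Q i)) := by
    refine Pr_mono fun ω hω => ?_
    unfold GoodP at hω
    push Not at hω
    obtain ⟨M, hKM, t, ht, P, Q, hc, hcomp, hlt⟩ := hω
    refine ⟨#M, Finset.mem_filter.2 ⟨?_, hKM⟩, M, rfl, t, ht, P, Q, hc, hcomp, hlt⟩
    have := Finset.card_le_univ M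
    simp only [Fintype.card_fin] at this
    exact Finset.mem_range.2 (by omega)
  refine h1.trans ((Pr_union _ _).trans ?_)
  have h2 : ∀ m ∈ (Finset.range (n + 1)).filter (fun m : ℕ => K ≤ m),
      Pr (fun ω : Sym2 (Fin n) → Bool => ∃ M : Finset (Fin n), #M = m ∧ ∃ t ≤ m,
      ∃ P Q : Fin t → Finset (Fin n), CondP M l ((1 / 2) ^ 85) P Q ∧
      (∀ i, ∀ x ∈ P i, ∀ y ∈ Q i, ω s(x, y) = true) ∧
      ((1 / 2) ^ 85) * (m : ℝ) ^ 2 < ∑ i, (#(P i) : ℝ) * #(Q i)) ≤ 1 / ((n : ℝ) + 1) ^ 2 := by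
    intro m hm
    have hmK := (Finset.mem_filter.1 hm).2
    have hmn : m ≤ n := by
      have := Finset.mem_range.1 (Finset.mem_filter.1 hm).1
      omega
    have hmn' : (m : ℝ) ≤ n := by exact_mod_cast hmn
    have hm64 : 64 * (l : ℝ) ^ 2 ≤ (1 / 2) ^ 85 * m := by
      have := mul_le_mul_of_nonneg_left (hK1.trans hmK) (show (0 : ℝ) ≤ (1 / 2) ^ 85 by positivity)
      rw [← mul_assoc, hpow, one_mul] at this
      exact this
    have hmlog : 128 * Real.log (n + 1) ≤ (1 / 2) ^ 85 * m := by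
      have := mul_le_mul_of_nonneg_left (hK2.trans hmK) (show (0 : ℝ) ≤ (1 / 2) ^ 85 by positivity)
      rw [← mul_assoc, ← mul_assoc, hpow, one_mul] at this
      exact this
    have hm1 : (1 : ℝ) ≤ m := by
      have h5 : ((1 : ℝ) / 2) ^ 85 ≤ 1 := pow_le_one₀ (by norm_num) (by norm_num)
      have h6 : (1 / 2 : ℝ) ^ 85 * m ≤ 1 * m := mul_le_mul_of_nonneg_right h5 (by positivity)
      linarith
    refine (Pr_badP n m l ((1 / 2) ^ 85) ((1 / 2) ^ 85) hl hm64).trans ?_
    have e1 : ((n : ℝ) + 1) ^ m = Real.exp (m * Real.log (n + 1)) := by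
      rw [Real.exp_nat_mul, Real.exp_log (by positivity)]
    have e2 : 1 / ((n : ℝ) + 1) ^ 2 = Real.exp (-((2 : ℕ) * Real.log (n + 1))) := by
      rw [Real.exp_neg, Real.exp_nat_mul, Real.exp_log (by positivity), one_div]
    have e3 : (m : ℝ) + 1 ≤ Real.exp (Real.log (n + 1)) := by
      rw [Real.exp_log (by positivity)]; linarith
    calc _ ≤ Real.exp (m * Real.log (n + 1)) * (Real.exp (Real.log (n + 1)) *
          Real.exp (-((1 / 2) ^ 85 * (m : ℝ) ^ 2 / 4))) := by
          rw [e1]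
          exact mul_le_mul_of_nonneg_left (mul_le_mul_of_nonneg_right e3 (Real.exp_pos _).le)
            (Real.exp_pos _).le
      _ = Real.exp (m * Real.log (n + 1) + (Real.log (n + 1) + -((1 / 2) ^ 85 * (m : ℝ) ^ 2 / 4))) := by
          rw [← Real.exp_add, ← Real.exp_add]
      _ ≤ _ := by
          rw [e2]
          apply Real.exp_le_exp.2
          push_cast
          have e4 : 128 * Real.log (n + 1) * m ≤ (1 / 2) ^ 85 * m * m :=
            mul_le_mul_of_nonneg_right hmlog (by positivity)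
          have e5 : Real.log (n + 1) ≤ Real.log (n + 1) * m := by
            have : (0 : ℝ) ≤ Real.log (n + 1) := by linarith
            nlinarith
          nlinarith
  refine (Finset.sum_le_sum h2).trans ?_
  rw [Finset.sum_const, nsmul_eq_mul]
  have h3 : (#((Finset.range (n + 1)).filter (fun m : ℕ => K ≤ m)) : ℝ) ≤ n + 1 := by
    have := Finset.card_filter_le (Finset.range (n + 1)) (fun m : ℕ => K ≤ m)
    rw [Finset.card_range] at this
    exact_mod_cast this
  calc _ ≤ ((n : ℝ) + 1) * (1 / ((n : ℝ) + 1) ^ 2) := mul_le_mul_of_nonneg_right h3 (by positivity)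
    _ = _ := by field_simp

end H2BC
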