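import Mathlib
import Pool.Agent.H2BC.Det4

set_option autoImplicit false

open Finset Classical Filter Topology

namespace H2BC

/-- `A, B` describe a partition of the edge set of `G` into `r` bicliques. -/
structure BicliquePartition {V : Type} (G : SimpleGraph V) (r : ℕ) (A B : Fin r → Finset V) :
    Prop where
  nonempty_left : ∀ i, (A i).Nonempty
  nonempty_right : ∀ i, (B i).Nonempty
  disjoint : ∀ i, Disjoint (A i) (B i)
  complete : ∀ i, ∀ x ∈ A i, ∀ y ∈ B i, G.Adj x y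
  partition : ∀ x y, G.Adj x y → ∃! i, (x ∈ A i ∧ y ∈ B i) ∨ (y ∈ A i ∧ x ∈ B i)

/-- The biclique partition number. -/
noncomputable def bc {V : Type} (G : SimpleGraph V) : ℕ :=
  sInf {r : ℕ | ∃ A B : Fin r → Finset V, BicliquePartition G r A B}

lemma BicliquePartition.isBP {V : Type} {G : SimpleGraph V} {r : ℕ} {A B : Fin r → Finset V}
    (h : BicliquePartition G r A B) : IsBP G A B := by
  refine ⟨h.nonempty_left, h.nonempty_right, h.complete, fun x y hxy => (h.partition x y hxy).exists, ?_⟩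
  intro i j x y hx hy hj
  exact (h.partition x y (h.complete i x hx y hy)).unique (Or.inl ⟨hx, hy⟩) hj

lemma exists_partition {n : ℕ} (G : SimpleGraph (Fin n)) :
    ∃ r : ℕ, ∃ A B : Fin r → Finset (Fin n), BicliquePartition G r A B := by
  have ε : Fin (Fintype.card G.edgeSet) ≃ G.edgeSet := (Fintype.equivFin G.edgeSet).symm
  have hout : ∀ i, s((ε i : Sym2 (Fin n)).out.1, (ε i : Sym2 (Fin n)).out.2) = (ε i : Sym2 (Fin n)) :=
    fun i => Quot.out_eq _
  have hadj : ∀ i, G.Adj (ε i : Sym2 (Fin n)).out.1 (ε i : Sym2 (Fin n)).out.2 := by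
    intro i
    rw [← SimpleGraph.mem_edgeSet, hout i]
    exact (ε i).2
  refine ⟨Fintype.card G.edgeSet, fun i => {(ε i : Sym2 (Fin n)).out.1},
    fun i => {(ε i : Sym2 (Fin n)).out.2}, ?_, ?_, ?_, ?_, ?_⟩
  · intro i; simp
  · intro i; simp
  · intro i
    rw [Finset.disjoint_singleton]
    exact (hadj i).ne
  · intro i x hx y hy
    rw [Finset.mem_singleton] at hx hy
    rw [hx, hy]; exact hadj i
  · intro x y hxy
    have key : ∀ i, ((x ∈ ({(ε i : Sym2 (Fin n)).out.1} : Finset (Fin n)) ∧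
        y ∈ ({(ε i : Sym2 (Fin n)).out.2} : Finset (Fin n))) ∨
        (y ∈ ({(ε i : Sym2 (Fin n)).out.1} : Finset (Fin n)) ∧
        x ∈ ({(ε i : Sym2 (Fin n)).out.2} : Finset (Fin n)))) ↔ (ε i : Sym2 (Fin n)) = s(x, y) := by
      intro i
      have hh := hout i
      simp only [Finset.mem_singleton]
      constructor
      · intro h
        rw [← hh, Sym2.eq_iff]
        rcases h with ⟨h1, h2⟩ | ⟨h1, h2⟩
        · exact Or.inl ⟨h1.symm, h2.symm⟩
        · exact Or.inr ⟨h1.symm, h2.symm⟩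
      · intro h
        rw [← hh, Sym2.eq_iff] at h
        rcases h with ⟨h1, h2⟩ | ⟨h1, h2⟩
        · exact Or.inl ⟨h1.symm, h2.symm⟩
        · exact Or.inr ⟨h1.symm, h2.symm⟩
    refine ⟨ε.symm ⟨s(x, y), hxy⟩, (key _).2 (by rw [Equiv.apply_symm_apply]), fun j hj => ?_⟩
    have := (key j).1 hj
    rw [Equiv.eq_symm_apply]
    exact Subtype.ext this

lemma bc_spec {n : ℕ} (G : SimpleGraph (Fin n)) :
    ∃ A B : Fin (bc G) → Finset (Fin n), BicliquePartition G (bc G) A B := by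
  have h := Nat.sInf_mem (s := {r : ℕ | ∃ A B : Fin r → Finset (Fin n), BicliquePartition G r A B})
    (exists_partition G)
  exact h

/-- Error term for the independence number. -/
lemma alpha_err (n : ℕ) (hn : 1 ≤ n) :
    ((n : ℝ) + 1) ^ (Nat.log 2 n / 2) * (1 - (1 / 2) ^ (Nat.log 2 n / 2)) ^ (n - Nat.log 2 n / 2) ≤
      Real.exp (2 * Real.log (n + 1) ^ 2 - Real.sqrt n + 1) := by
  set k := Nat.log 2 n / 2 with hk
  have hn1 : (1 : ℝ) ≤ n := by exact_mod_cast hn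
  have hpow : ((2 : ℝ) ^ k) ^ 2 ≤ n := by
    have h1 : (2 ^ k) ^ 2 ≤ n := by
      rw [← pow_mul]
      refine le_trans (Nat.pow_le_pow_right (by norm_num) (by omega)) (Nat.pow_log_le_self 2 (by omega))
    exact_mod_cast h1
  have hsq : (2 : ℝ) ^ k ≤ Real.sqrt n := Real.le_sqrt_of_sq_le hpow
  have hk2 : (k : ℝ) ≤ 2 ^ k := by exact_mod_cast (Nat.lt_two_pow_self (n := k)).le
  have hkn : k ≤ n := by
    have h1 : (k : ℝ) ≤ n := by
      have h2 : (1 : ℝ) ≤ 2 ^ k := one_le_pow₀ (by norm_num)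
      nlinarith
    exact_mod_cast h1
  have e1 : ((n : ℝ) + 1) ^ k = Real.exp (k * Real.log (n + 1)) := by
    rw [Real.exp_nat_mul, Real.exp_log (by positivity)]
  have hklog : (k : ℝ) ≤ 2 * Real.log (n + 1) := by
    have h1 : (2 : ℝ) ^ k ≤ n + 1 := by
      have h2 : (1 : ℝ) ≤ 2 ^ k := one_le_pow₀ (by norm_num)
      nlinarith
    have h2 : Real.log ((2 : ℝ) ^ k) ≤ Real.log (n + 1) := Real.log_le_log (by positivity) h1
    rw [Real.log_pow] at h2
    have h3 := Real.log_two_gt_d9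
    have h4 : (k : ℝ) * (1 / 2) ≤ k * Real.log 2 := mul_le_mul_of_nonneg_left (by linarith) (by positivity)
    linarith
  have hlog0 : (0 : ℝ) ≤ Real.log (n + 1) := Real.log_nonneg (by linarith)
  have e2 : ((1 : ℝ) - (1 / 2) ^ k) ^ (n - k) ≤ Real.exp (-((n - k : ℕ) * (1 / 2) ^ k)) := by
    have h1 : (1 : ℝ) - (1 / 2) ^ k ≤ Real.exp (-((1 / 2) ^ k)) := by
      have := Real.add_one_le_exp (-((1 / 2 : ℝ) ^ k)); linarith
    have h2 : (0 : ℝ) ≤ 1 - (1 / 2) ^ k := by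
      have : ((1 : ℝ) / 2) ^ k ≤ 1 := pow_le_one₀ (by norm_num) (by norm_num)
      linarith
    refine (pow_le_pow_left₀ h2 h1 _).trans (le_of_eq ?_)
    rw [← Real.exp_nat_mul]; congr 1; ring
  have hs0 : (0 : ℝ) < Real.sqrt n := Real.sqrt_pos.2 (by linarith)
  have e3 : Real.sqrt n - 1 ≤ ((n - k : ℕ) : ℝ) * (1 / 2) ^ k := by
    rw [Nat.cast_sub hkn, one_div, inv_pow, ← div_eq_mul_inv, le_div_iff₀ (by positivity)]
    have h1 : (1 : ℝ) ≤ Real.sqrt n := by
      rw [show (1 : ℝ) = Real.sqrt 1 by simp]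
      exact Real.sqrt_le_sqrt hn1
    have h2 : (Real.sqrt n - 1) * 2 ^ k ≤ (Real.sqrt n - 1) * Real.sqrt n :=
      mul_le_mul_of_nonneg_left hsq (by linarith)
    have h3 : Real.sqrt n * Real.sqrt n = n := Real.mul_self_sqrt (by linarith)
    nlinarith
  calc _ ≤ Real.exp (k * Real.log (n + 1)) * Real.exp (-((n - k : ℕ) * (1 / 2) ^ k)) := by
        rw [e1]; exact mul_le_mul_of_nonneg_left e2 (Real.exp_pos _).le
    _ = Real.exp (k * Real.log (n + 1) + -((n - k : ℕ) * (1 / 2) ^ k)) := by rw [← Real.exp_add]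
    _ ≤ _ := by
        apply Real.exp_le_exp.2
        have : (k : ℝ) * Real.log (n + 1) ≤ 2 * Real.log (n + 1) * Real.log (n + 1) :=
          mul_le_mul_of_nonneg_right hklog hlog0
        nlinarith

lemma alpha_err_tendsto :
    Tendsto (fun n : ℕ => Real.exp (2 * Real.log ((n : ℝ) + 1) ^ 2 - Real.sqrt n + 1)) atTop (𝓝 0) := by
  have h1 := isLittleO_log_rpow_rpow_atTop (2 : ℝ) (show (0 : ℝ) < 1 / 2 by norm_num)
  have h2 : ∀ᶠ x : ℝ in atTop, ‖Real.log x ^ (2 : ℝ)‖ ≤ 1 / 8 * ‖x ^ (1 / 2 : ℝ)‖ :=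
    h1.def (by norm_num)
  have h3 : Tendsto (fun n : ℕ => (n : ℝ) + 1) atTop atTop :=
    tendsto_atTop_add_const_right _ _ tendsto_natCast_atTop_atTop
  have h4 := h3.eventually h2
  have h5 : ∀ᶠ n : ℕ in atTop, Real.exp (2 * Real.log ((n : ℝ) + 1) ^ 2 - Real.sqrt n + 1) ≤
      Real.exp (-(1 / 2 * Real.sqrt n) + 2) := by
    filter_upwards [h4, eventually_ge_atTop 1] with n hn hn1
    have hn1' : (1 : ℝ) ≤ n := by exact_mod_cast hn1
    apply Real.exp_le_exp.2
    rw [Real.rpow_two, ← Real.sqrt_eq_rpow, Real.norm_of_nonneg (sq_nonneg _),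
      Real.norm_of_nonneg (Real.sqrt_nonneg _)] at hn
    have h6 : Real.sqrt ((n : ℝ) + 1) ≤ Real.sqrt n + 1 := by
      rw [Real.sqrt_le_left (by positivity)]
      have := Real.sq_sqrt (show (0 : ℝ) ≤ n by linarith)
      nlinarith [Real.sqrt_nonneg (n : ℝ)]
    nlinarith [Real.sqrt_nonneg (n : ℝ)]
  have h7 : Tendsto (fun n : ℕ => Real.exp (-(1 / 2 * Real.sqrt n) + 2)) atTop (𝓝 0) := by
    refine Real.tendsto_exp_atBot.comp ?_
    refine tendsto_atBot_add_const_right _ _ (tendsto_neg_atTop_atBot.comp ?_)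
    exact Tendsto.const_mul_atTop (by norm_num)
      (Real.tendsto_sqrt_atTop.comp tendsto_natCast_atTop_atTop)
  exact squeeze_zero' (Eventually.of_forall fun n => (Real.exp_pos _).le) h5 h7

/-- The main theorem. -/
theorem main : ∃ C : ℝ, 0 < C ∧
    Tendsto (fun n : ℕ => (Nat.card {G : SimpleGraph (Fin n) //
        (n : ℝ) - C * G.indepNum ≤ bc G} : ℝ) / (Nat.card (SimpleGraph (Fin n)) : ℝ))
      atTop (𝓝 1) := by
  obtain ⟨l, hl⟩ : ∃ l : ℕ, l = 91 := ⟨_, rfl⟩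
  have hl1 : 1 ≤ l := by rw [hl]; norm_num
  obtain ⟨a, ha⟩ : ∃ a : ℕ, a = 16 * l := ⟨_, rfl⟩
  obtain ⟨D, hD⟩ : ∃ D : ℕ, D = a ^ 2 * 2 ^ 85 := ⟨_, rfl⟩
  set cU : ℝ := 2 ^ 67 * ((1 + (a + 1) * D : ℕ) + 2) with hcU
  set cP : ℝ := 2 ^ 85 * (128 * (l : ℝ) ^ 2) with hcP
  set q : ℝ := ((8 * ((1 + a * D) * (1 + a * D)) : ℕ) : ℝ) with hq
  set C1 : ℝ := cP + 112 * q * cU with hC1
  have hcU0 : 0 < cU := by positivity
  have hq0 : 0 < q := by rw [hq]; positivity
  have hcP0 : 0 < cP := by rw [hcP, hl]; positivity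
  have hC10 : 0 < C1 := by positivity
  refine ⟨4 * C1, by positivity, ?_⟩
  have hexp : Real.exp (-(l : ℝ)) ≤ (1 / 2) ^ 85 / 64 := by
    have h1 : Real.exp (-1) ≤ 1 / 2 := by
      rw [Real.exp_neg, inv_le_comm₀ (Real.exp_pos _) (by norm_num)]
      have := Real.add_one_le_exp (1 : ℝ)
      norm_num at this ⊢
      linarith
    have h2 : Real.exp (-(l : ℝ)) = Real.exp (-1) ^ l := by
      rw [← Real.exp_nat_mul]; congr 1; ring
    rw [h2, hl]
    calc Real.exp (-1) ^ 91 ≤ (1 / 2) ^ 91 := pow_le_pow_left₀ (Real.exp_pos _).le h1 _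
      _ = _ := by norm_num
  -- lower bound on the probability
  have hlow : ∀ᶠ n : ℕ in atTop, 1 - (1 / ((n : ℝ) + 1) + 1 / ((n : ℝ) + 1) +
      Real.exp (2 * Real.log ((n : ℝ) + 1) ^ 2 - Real.sqrt n + 1)) ≤
      (Nat.card {G : SimpleGraph (Fin n) //
        (n : ℝ) - 4 * C1 * G.indepNum ≤ bc G} : ℝ) / (Nat.card (SimpleGraph (Fin n)) : ℝ) := by
    filter_upwards [eventually_ge_atTop 4] with n hn
    have hn1 : 1 ≤ n := by omega
    have e1 := Pr_not_GoodU n a D hn1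
    have e2 := Pr_not_GoodP n l hn1 hexp hl1
    rw [← hcU] at e1
    rw [← hcP] at e2
    have e3 := (Pr_alpha n (Nat.log 2 n / 2)).trans (alpha_err n hn1)
    rw [card_simpleGraph]
    push_cast
    rw [← Pr_gr n (fun G => (n : ℝ) - 4 * C1 * G.indepNum ≤ bc G)]
    have e4 : Pr (fun ω : Sym2 (Fin n) → Bool =>
        ¬ ((n : ℝ) - 4 * C1 * (gr ω).indepNum ≤ bc (gr ω))) ≤
        Pr (fun ω : Sym2 (Fin n) → Bool => (¬ GoodU n a D (cU * Real.log (n + 1)) ω ∨
          ¬ GoodP n l ((1 / 2) ^ 85) ((1 / 2) ^ 85) (cP * Real.log (n + 1)) ω) ∨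
          (gr ω).indepNum < Nat.log 2 n / 2) := by
      refine Pr_mono fun ω hω => ?_
      by_contra hcon
      push Not at hcon
      obtain ⟨⟨hU, hP⟩, hα⟩ := hcon
      apply hω
      obtain ⟨A, B, hAB⟩ := bc_spec (gr ω)
      have hlog0 : (0 : ℝ) ≤ Real.log (n + 1) := Real.log_nonneg (by
        have : (0 : ℝ) ≤ n := by positivity
        linarith)
      have hmain := lower hAB.isBP l a D hl1 ha hD (cP * Real.log (n + 1))
        (cU * Real.log (n + 1)) (C1 * Real.log (n + 1)) hP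
        (by
          rw [hC1]
          have : 0 ≤ 112 * q * cU * Real.log (n + 1) :=
            mul_nonneg (mul_nonneg (mul_nonneg (by norm_num) hq0.le) hcU0.le) hlog0
          linarith) hU
        (by
          rw [hC1]
          have : 0 ≤ cP * Real.log (n + 1) := mul_nonneg hcP0.le hlog0
          linarith)
        (mul_nonneg hC10.le hlog0)
      -- the logarithm is at most four times the independence number
      have hk1 : 1 ≤ Nat.log 2 n / 2 := by
        have : 2 ≤ Nat.log 2 n := by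
          have := Nat.log_mono_right (b := 2) hn
          have h4 : Nat.log 2 4 = 2 := by
            rw [show (4 : ℕ) = 2 ^ 2 by norm_num, Nat.log_pow (by norm_num)]
          omega
        omega
      have hlogle : Real.log (n + 1) ≤ 4 * (Nat.log 2 n / 2 : ℕ) := by
        have h1 : n + 1 ≤ 2 ^ (Nat.log 2 n + 1) := Nat.lt_pow_succ_log_self (by norm_num) n
        have h2 : ((n : ℝ) + 1) ≤ 2 ^ (Nat.log 2 n + 1) := by exact_mod_cast h1
        have h3 : Real.log (n + 1) ≤ Real.log (2 ^ (Nat.log 2 n + 1)) :=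
          Real.log_le_log (by positivity) h2
        rw [Real.log_pow] at h3
        have h4 : Real.log 2 ≤ 1 := by
          have := Real.log_two_lt_d9; linarith
        have h5 : ((Nat.log 2 n + 1 : ℕ) : ℝ) * Real.log 2 ≤ (Nat.log 2 n + 1 : ℕ) * 1 :=
          mul_le_mul_of_nonneg_left h4 (by positivity)
        have h6 : Nat.log 2 n + 1 ≤ 4 * (Nat.log 2 n / 2) := by omega
        have h7 : ((Nat.log 2 n + 1 : ℕ) : ℝ) ≤ 4 * (Nat.log 2 n / 2 : ℕ) := by exact_mod_cast h6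
        linarith
      have hα' : ((Nat.log 2 n / 2 : ℕ) : ℝ) ≤ (gr ω).indepNum := by exact_mod_cast hα
      have h8 : C1 * Real.log (n + 1) ≤ C1 * (4 * (gr ω).indepNum) :=
        mul_le_mul_of_nonneg_left (by linarith) hC10.le
      linarith
    have e5 := Pr_or (fun ω : Sym2 (Fin n) → Bool => (¬ GoodU n a D (cU * Real.log (n + 1)) ω ∨
          ¬ GoodP n l ((1 / 2) ^ 85) ((1 / 2) ^ 85) (cP * Real.log (n + 1)) ω))
          (fun ω => (gr ω).indepNum < Nat.log 2 n / 2)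
    have e6 := Pr_or (fun ω : Sym2 (Fin n) → Bool => ¬ GoodU n a D (cU * Real.log (n + 1)) ω)
      (fun ω => ¬ GoodP n l ((1 / 2) ^ 85) ((1 / 2) ^ 85) (cP * Real.log (n + 1)) ω)
    have e7 := Pr_not (fun ω : Sym2 (Fin n) → Bool =>
      ((n : ℝ) - 4 * C1 * (gr ω).indepNum ≤ bc (gr ω)))
    linarith
  have hup : ∀ᶠ n : ℕ in atTop, (Nat.card {G : SimpleGraph (Fin n) //
        (n : ℝ) - 4 * C1 * G.indepNum ≤ bc G} : ℝ) / (Nat.card (SimpleGraph (Fin n)) : ℝ) ≤ 1 := by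
    filter_upwards with n
    rw [card_simpleGraph]
    push_cast
    rw [← Pr_gr n (fun G => (n : ℝ) - 4 * C1 * G.indepNum ≤ bc G)]
    exact Pr_le_one _
  refine tendsto_of_tendsto_of_tendsto_of_le_of_le' ?_ tendsto_const_nhds hlow hup
  have t1 : Tendsto (fun n : ℕ => 1 / ((n : ℝ) + 1)) atTop (𝓝 0) := tendsto_one_div_add_atTop_nhds_zero_nat
  have t2 := (tendsto_const_nhds (x := (1 : ℝ)) (f := (atTop : Filter ℕ))).sub ((t1.add t1).add alpha_err_tendsto)
  simpa using t2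

end H2BC
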